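import Pool.Agent.H94.SF.Defs
import Pool.Agent.H97.SF.DD
import Pool.Agent.H47.SD.Ext
import Pool.Agent.H36.SC.BgSF

/-!
# MP_f4af34, block END: assembly

From the extended modes (helper47), the pair and the radial function (helper97), the background
(helper36) and the interior solution near the origin to `ParData.notSchiffer` (helper31).
-/

set_option autoImplicit false
open Filter Topology Set

noncomputable section

namespace SF

open Pool.Agent.H68.SC (jl djl)
open Pool.Agent.H27.Leg (P)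
open Pool.Agent.H31.SG (E3 xx ParData RadFun NotSchiffer)
open Pool.Agent.H97.SF (Ext BgFull xiq Yf)
open SD (ey ez e0 cf Modes LS)

/-- the interior solutions near the origin (helper31) -/
def InnerStmt (R : ℝ) : Prop :=
  ∀ c : ℕ → ℝ, (Summable fun k => |c k * jl k R|) →
    ∃ b : ℝ, 0 < b ∧ b ≤ R ∧ ∃ u : E3 → ℝ, ContDiffOn ℝ 2 u (Metric.ball 0 b) ∧
      (∀ X ∈ Metric.ball (0 : E3) b,
        (∑ i : Fin 3, fderiv ℝ (fderiv ℝ u) X (EuclideanSpace.single i (1 : ℝ))
          (EuclideanSpace.single i (1 : ℝ))) + u X = 0) ∧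
      ∀ X : E3, X ≠ 0 → ‖X‖ < b → u X = ∑' k, c k * jl k ‖X‖ * (P k).eval (xx X)

theorem _root_.Pool.Agent.H31.SG.ParData.shrink {ξ a b ρ c : ℝ}
    {r rs rx V A W As Ax Ws Wx : ℝ × ℝ → ℝ} (h : ParData ξ a b ρ c r rs rx V A W As Ax Ws Wx)
    {b' : ℝ} (h1 : a < b') (h2 : b' ≤ b) : ParData ξ a b' ρ c r rs rx V A W As Ax Ws Wx :=
  { h with
    ab := h1
    bρ := h2.trans_lt h.bρ
    id := fun z hz hb => h.id z hz (hb.trans_le h2) }

theorem end_of_ext {E nu' qq : ℝ} (hE : E ≠ 0) (S : Lay E) (hin : InnerStmt R0)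
    (hM : Modes R0 rho nu S.y S.z S.f1 S.f2)
    (hqq : Icc (-1 : ℝ) 1 ⊆ X0)
    (hext : ∀ a : ℝ, 0 < a → a < R0 → Ext a R0 rho nu' qq v0 v1 v2 v3 chi chi1
      (ey S.y S.z R0) (ez S.y S.z R0) (e0 S.f1 R0) (e0 S.f2 R0)) : NotSchiffer := by
  classical
  have hR0 := R0_pos'
  -- the coefficients of the interior solution
  set cc : ℕ → ℝ := fun k => (if k = 0 then 1 / jl 0 rho else 0) - cf S.y S.z R0 k with hcc
  have hs1 : Summable fun k => |cf S.y S.z R0 k * jl k R0| := by
    have h := hM.coef_summable (q := 1) zero_le_one hM.nu 0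
    refine h.congr fun k => ?_
    simp
  have hs2 : Summable fun k => |cc k * jl k R0| := by
    have h0 : Summable fun k : ℕ => |(if k = 0 then 1 / jl 0 rho else 0) * jl k R0| := by
      refine summable_of_ne_finset_zero (s := {0}) fun k hk => ?_
      rw [Finset.mem_singleton] at hk
      rw [if_neg hk, zero_mul, abs_zero]
    refine Summable.of_nonneg_of_le (fun k => abs_nonneg _) (fun k => ?_) (h0.add hs1)
    rw [hcc]
    dsimp only
    rw [sub_mul]
    exact abs_sub _ _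
  obtain ⟨b, hb0, hbR, u, hu, hpde, hglue⟩ := hin cc hs2
  have ha0 : 0 < b / 2 := by positivity
  have hab : b / 2 < b := by linarith
  have X := hext (b / 2) ha0 (hab.trans_le hbR)
  have PF := X.pairFull
  have BG := bgFull ha0 (hab.trans_le hbR)
  have PD := (Pool.Agent.H97.SF.parData BG PF).shrink hab hbR
  -- the radial function
  have hrho : R0 < rho := R0_lt_rho
  have hρI : rho ∈ I0 := ⟨hrho.le, le_rfl⟩
  have hyρ : ∀ k, ey S.y S.z R0 k rho = S.y k rho := fun k => hM.ey_eq k hrho.le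
  have hLS : ∀ x, LS 0 (ey S.y S.z R0) rho x = ev (fun k => S.y k rho) x := by
    intro x
    unfold LS ev
    exact tsum_congr fun k => by rw [hyρ k]; rfl
  have eR : (fun x => Pool.Agent.H36.SC.cX chi (Yf (ey S.y S.z R0) 0) (rho, x)) =
      fun x => rho + LS 0 (ey S.y S.z R0) rho x := by
    funext x
    simp only [Pool.Agent.H36.SC.cX, Yf, chi_rho, one_mul]
  have RF : RadFun (fun x => Pool.Agent.H36.SC.cX chi (Yf (ey S.y S.z R0) 0) (rho, x)) R0 (xiq qq) := by
    rw [eR]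
    refine ⟨hR0, SD.one_lt_half X.one_lt, contDiffOn_const.add X.contDiff, ?_, ?_, ?_⟩
    · intro x hx
      have h1 := (S.small rho hρI x (hqq hx)).1
      rw [hLS]
      have h2 := (abs_le.1 h1).1
      have h3 : R0 = rho - 1 / 4 := by unfold R0 wd; ring
      rw [h3]
      linarith
    · intro x _
      show rho + LS 0 (ey S.y S.z R0) rho (-x) = rho + LS 0 (ey S.y S.z R0) rho x
      have h1 : ∀ k, Odd k → ∀ s : ℝ, (fun (k : ℕ) (_ : ℝ) => S.y k rho) k s = 0 := fun k hk _ =>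
        (S.odd k hk rho hρI).1
      have h2 := SD.LS_even h1 rho x
      have h3 : ∀ x, LS 0 (fun (k : ℕ) (_ : ℝ) => S.y k rho) rho x = LS 0 (ey S.y S.z R0) rho x := by
        intro x
        unfold LS
        exact tsum_congr fun k => by rw [hyρ k]
      rw [h3, h3] at h2
      rw [h2]
    · have h1 : ey S.y S.z R0 ell rho ≠ 0 := by
        rw [hyρ, S.amp]
        exact hE
      obtain ⟨x, hx, hne⟩ := X.nonconst (l := ell) (by unfold ell; norm_num) h1
      exact ⟨x, hx, fun hh => hne (by simpa using hh)⟩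
  refine PD.notSchiffer one_ne_zero RF hbR hu hpde ?_
  intro Y hY1 hY2
  have hY0 : 0 < ‖Y‖ := ha0.trans hY1
  have hYne : Y ≠ 0 := norm_pos_iff.1 hY0
  have hYR : ‖Y‖ ≤ R0 := hY2.le.trans hbR
  rw [hglue Y hYne hY2]
  simp only [Pool.Agent.H36.SC.cG, Yf, chi_of_le hYR, zero_mul, mul_zero, add_zero, sub_zero]
  -- the series
  have hxY : xx Y ∈ Icc (-1 : ℝ) 1 := Pool.Agent.H31.SG.xx_mem Y
  have hxJ : xx Y ∈ SD.J qq := SD.Icc_subset_J X.one_lt hxY
  have hmem : ‖Y‖ ∈ Ioc (b / 2) rho := ⟨hY1, hYR.trans hrho.le⟩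
  have hsum := SD.LS_summable (d := 0) (X.dom X.Dz 0) (by norm_num) X.q_le hmem hxJ
  have e1 : ∀ k, cc k * jl k ‖Y‖ * (P k).eval (xx Y) =
      (if k = 0 then jl 0 ‖Y‖ / jl 0 rho else 0) - ez S.y S.z R0 k ‖Y‖ * SD.Pd 0 k (xx Y) := by
    intro k
    rw [hcc]
    unfold ez
    rw [if_pos hYR, SD.Pd_zero]
    dsimp only
    split_ifs with hk
    · subst hk
      rw [Pool.Agent.H27.Leg.P_zero]
      simp
      ring
    · ring
  have hsum0 : Summable fun k : ℕ => (if k = 0 then jl 0 ‖Y‖ / jl 0 rho else 0) :=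
    summable_of_ne_finset_zero (s := {0}) fun k hk => by
      rw [Finset.mem_singleton] at hk
      rw [if_neg hk]
  rw [tsum_congr e1, hsum0.tsum_sub hsum, tsum_ite_eq]
  unfold v0 Pool.Agent.H36.SC.bv0 LS
  ring

end SF
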