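import Pool.Agent.H85.Sch.Inv

/-!
# Schiffer / Pompeiu in space: the end step

From parametrised data in the meridian variables (and a `C²` solution near the origin) to the
frozen statement `S06716`.
-/

set_option autoImplicit false
open Filter Topology Set

namespace H85Sch

open Pool.Agent.H36.SC (hd hd_apply rc cs dN dC hasFDerivAt_rc hasFDerivAt_comp_rc laplace_rc)

/-- the statement negated in `S06716` -/
def Conj : Prop :=
  ∀ (D : Set (EuclideanSpace ℝ (Fin 3))) (φ : EuclideanSpace ℝ (Fin 3) → ℝ),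
      Bornology.IsBounded D → IsConnected D → ContDiff ℝ 2 φ →
      D = {x | φ x < 0} →
      (∀ x, φ x = 0 → fderiv ℝ φ x ≠ 0) →
      Nonempty (frontier D ≃ₜ Metric.sphere (0 : EuclideanSpace ℝ (Fin 3)) 1) →
      ∀ (k c : ℝ) (u : EuclideanSpace ℝ (Fin 3) → ℝ),
        0 < k → c ≠ 0 → ContDiffOn ℝ 2 u D →
        (∀ x ∈ D, (∑ i : Fin 3, fderiv ℝ (fderiv ℝ u) x (EuclideanSpace.single i (1 : ℝ))
            (EuclideanSpace.single i (1 : ℝ))) + k ^ 2 * u x = 0) →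
        (∀ x ∈ frontier D, Tendsto u (𝓝[D] x) (𝓝 c) ∧
            Tendsto (fderiv ℝ u) (𝓝[D] x) (𝓝 0)) →
        ∃ (z : EuclideanSpace ℝ (Fin 3)) (r : ℝ), D = Metric.ball z r

theorem rc_eq (y : E3) : rc y = (‖y‖, xi y) := rfl

theorem rc_mem_Om {R : ℝ → ℝ} {e : ℝ} (hR : Prof R e) {y : E3} (hy : y ∈ Dom R) (h0 : y ≠ 0) :
    rc y ∈ Om R e :=
  ⟨hR.sub (xi_mem y), norm_pos_iff.mpr h0, hy⟩

/-- the local solution away from the origin -/
noncomputable def gsol (ρ : ℝ) (X G : ℝ × ℝ → ℝ) (y : E3) : ℝ := G (sig ρ X (rc y), xi y)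

/-- the global solution -/
noncomputable def usol (ρ R0 : ℝ) (X G : ℝ × ℝ → ℝ) (u0 : E3 → ℝ) (y : E3) : ℝ :=
  open Classical in if ‖y‖ < R0 then u0 y else gsol ρ X G y

namespace PData

variable {ρ e R0 c : ℝ} {R : ℝ → ℝ} {X G f h Xs Xx fs fx hs hx : ℝ × ℝ → ℝ}

theorem R0_lt (H : PData ρ e R0 c R X G f h Xs Xx fs fx hs hx) {x : ℝ}
    (hx' : x ∈ Ioo (-1 - e) (1 + e)) : R0 < R x := by
  have h1 : R0 ∈ Ioo 0 ρ := ⟨H.hR0, H.hRρ⟩
  have h2 := H.lt_R hx' h1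
  rwa [H.small _ ⟨h1, hx'⟩ le_rfl] at h2

theorem sig_small (H : PData ρ e R0 c R X G f h Xs Xx fs fx hs hx) {y : E3} (h0 : y ≠ 0)
    (hy : ‖y‖ < R0) : sig ρ X (rc y) = ‖y‖ := by
  have hxm := H.prof.sub (xi_mem y)
  have hO : rc y ∈ Om R e := ⟨hxm, norm_pos_iff.mpr h0, hy.trans (H.R0_lt hxm)⟩
  have hs' : ‖y‖ ∈ Ioo 0 ρ := ⟨norm_pos_iff.mpr h0, hy.trans H.hRρ⟩
  exact H.sig_unique hO hs' (H.small _ ⟨hs', hxm⟩ hy.le)

theorem usol_eq_gsol (H : PData ρ e R0 c R X G f h Xs Xx fs fx hs hx) {u0 : E3 → ℝ}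
    (hu : ∀ y : E3, ‖y‖ < R0 → y ≠ 0 → u0 y = G (‖y‖, xi y)) {y : E3} (h0 : y ≠ 0) :
    usol ρ R0 X G u0 y = gsol ρ X G y := by
  unfold usol
  by_cases hy : ‖y‖ < R0
  · rw [if_pos hy, hu y hy h0]
    unfold gsol
    rw [H.sig_small h0 hy]
  · rw [if_neg hy]

theorem ev_gsol (H : PData ρ e R0 c R X G f h Xs Xx fs fx hs hx) {u0 : E3 → ℝ}
    (hu : ∀ y : E3, ‖y‖ < R0 → y ≠ 0 → u0 y = G (‖y‖, xi y)) {y : E3} (h0 : y ≠ 0) :
    usol ρ R0 X G u0 =ᶠ[𝓝 y] gsol ρ X G := by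
  filter_upwards [isOpen_ne.mem_nhds h0] with z hz
  exact H.usol_eq_gsol hu hz

theorem ev_u0 (H : PData ρ e R0 c R X G f h Xs Xx fs fx hs hx) (u0 : E3 → ℝ) :
    usol ρ R0 X G u0 =ᶠ[𝓝 (0 : E3)] u0 := by
  filter_upwards [Metric.ball_mem_nhds (0 : E3) H.hR0] with z hz
  rw [mem_ball_zero_iff] at hz
  unfold usol
  rw [if_pos hz]

theorem cd_gsol (H : PData ρ e R0 c R X G f h Xs Xx fs fx hs hx) {y : E3} (hy : y ∈ Dom R)
    (h0 : y ≠ 0) : ContDiffAt ℝ 2 (gsol ρ X G) y := by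
  have hO := rc_mem_Om H.prof hy h0
  have h1 : ContDiffAt ℝ 2 (fun q : ℝ × ℝ => G (sig ρ X q, q.2)) (rc y) :=
    H.contDiffOn_g.contDiffAt (H.isOpen_Om.mem_nhds hO)
  have h2 : ContDiffAt ℝ 2 rc y := (contDiffAt_norm ℝ h0).prodMk (contDiffAt_xi h0)
  exact h1.comp y h2

theorem lap_gsol (H : PData ρ e R0 c R X G f h Xs Xx fs fx hs hx) {y : E3} (hy : y ∈ Dom R)
    (h0 : y ≠ 0) :
    ∑ i : Fin 3, fderiv ℝ (fderiv ℝ (gsol ρ X G)) y (EuclideanSpace.single i (1 : ℝ))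
      (EuclideanSpace.single i (1 : ℝ)) + gsol ρ X G y = 0 := by
  have hO := rc_mem_Om H.prof hy h0
  have hU := H.sig_mem hO
  have hev : ∀ᶠ p in 𝓝 (rc y), HasFDerivAt (fun q : ℝ × ℝ => G (sig ρ X q, q.2))
      (hd ((fun q : ℝ × ℝ => f (sig ρ X q, q.2)) p) ((fun q : ℝ × ℝ => h (sig ρ X q, q.2)) p)) p := by
    filter_upwards [H.isOpen_Om.mem_nhds hO] with p hp
    exact H.dg hp
  have a1 := H.comp_sig hO (H.df _ hU)
  rw [H.mixed hO] at a1
  have key := (laplace_rc h0 hev a1 (H.comp_sig hO (H.dh _ hU))).2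
  have e1 : (fun Y : E3 => (fun q : ℝ × ℝ => G (sig ρ X q, q.2)) (rc Y)) = gsol ρ X G := rfl
  rw [e1] at key
  rw [key]
  have hp := H.pde _ hU
  have hX : X (sig ρ X (rc y), (rc y).2) = ‖y‖ := (H.sig_spec hO).2
  rw [hX] at hp
  have e2 : (rc y).2 = cs y := rfl
  have e3 : gsol ρ X G y = G (sig ρ X (rc y), (rc y).2) := rfl
  rw [e3]
  simp only [e2] at hp ⊢
  have e4 : 2 / ‖y‖ * f (sig ρ X (rc y), cs y) = 2 * f (sig ρ X (rc y), cs y) / ‖y‖ := by ring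
  rw [e4]
  exact hp

theorem lim_gsol (H : PData ρ e R0 c R X G f h Xs Xx fs fx hs hx) {F : ℝ × ℝ → ℝ} {l : ℝ} {y : E3}
    (hb : ‖y‖ = R (xi y)) (hF : Tendsto F (𝓝[UU ρ e] (ρ, xi y)) (𝓝 l)) :
    Tendsto (fun z : E3 => F (sig ρ X (rc z), (rc z).2)) (𝓝[Dom R] y) (𝓝 l) := by
  have hpos := H.prof.norm_pos_of_bdry hb
  have h0 : y ≠ 0 := norm_pos_iff.mp hpos
  have h1 := H.lim_comp (H.prof.sub (xi_mem y)) hF
  refine Tendsto.comp (g := fun q : ℝ × ℝ => F (sig ρ X q, q.2)) (f := rc) h1 ?_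
  rw [tendsto_nhdsWithin_iff]
  refine ⟨?_, ?_⟩
  · have hc : ContinuousAt rc y := (hasFDerivAt_rc h0).continuousAt
    have : rc y = (R (xi y), xi y) := by rw [rc_eq, hb]
    rw [← this]
    exact hc.tendsto.mono_left nhdsWithin_le_nhds
  · have hne0 : ∀ᶠ z in 𝓝 y, z ≠ 0 := isOpen_ne.mem_nhds h0
    have hne : ∀ᶠ z in 𝓝[Dom R] y, z ≠ 0 := hne0.filter_mono nhdsWithin_le_nhds
    filter_upwards [hne, self_mem_nhdsWithin] with z hz hzD
    exact rc_mem_Om H.prof hzD hz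

/-- the end step -/
theorem conclude (H : PData ρ e R0 c R X G f h Xs Xx fs fx hs hx) (hc : c ≠ 0)
    (heven : ∀ x ∈ Icc (-1 : ℝ) 1, R (-x) = R x) (hnc : ∃ x ∈ Icc (-1 : ℝ) 1, R x ≠ R 0)
    {u0 : E3 → ℝ} (hu : ∀ y : E3, ‖y‖ < R0 → y ≠ 0 → u0 y = G (‖y‖, xi y))
    (hcd : ContDiffAt ℝ 2 u0 0)
    (hlap : ∑ i : Fin 3, fderiv ℝ (fderiv ℝ u0) 0 (EuclideanSpace.single i (1 : ℝ))
      (EuclideanSpace.single i (1 : ℝ)) + u0 0 = 0) : ¬ Conj := by
  intro hC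
  obtain ⟨m, hm, hmR⟩ := H.prof.exists_lower
  have hdom : Dom R = {y | Prof.phi R m y < 0} := by
    ext y; exact (H.prof.phi_neg_iff hm hmR y).symm
  refine H.prof.not_ball heven hnc (hC (Dom R) (Prof.phi R m) H.prof.bounded H.prof.connected
    (H.prof.phi_contDiff hm) hdom (H.prof.phi_fderiv_ne hm hmR) H.prof.homeo 1 c
    (usol ρ R0 X G u0) one_pos hc ?_ ?_ ?_)
  · intro y hy
    rcases eq_or_ne y 0 with rfl | h0
    · exact (hcd.congr_of_eventuallyEq (H.ev_u0 u0)).contDiffWithinAt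
    · exact ((H.cd_gsol hy h0).congr_of_eventuallyEq (H.ev_gsol hu h0)).contDiffWithinAt
  · intro y hy
    rw [one_pow, one_mul]
    rcases eq_or_ne y 0 with rfl | h0
    · have e1 := (H.ev_u0 u0).fderiv (𝕜 := ℝ)
      rw [e1.fderiv_eq, (H.ev_u0 u0).eq_of_nhds]
      exact hlap
    · have e1 := (H.ev_gsol hu h0).fderiv (𝕜 := ℝ)
      rw [e1.fderiv_eq, (H.ev_gsol hu h0).eq_of_nhds]
      exact H.lap_gsol hy h0
  · intro y hy
    rw [H.prof.frontier_eq] at hy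
    have hb : ‖y‖ = R (xi y) := hy
    have hpos := H.prof.norm_pos_of_bdry hb
    have h0 : y ≠ 0 := norm_pos_iff.mp hpos
    have hne0 : ∀ᶠ z in 𝓝 y, z ≠ 0 := isOpen_ne.mem_nhds h0
    have hne : ∀ᶠ z in 𝓝[Dom R] y, z ≠ 0 := hne0.filter_mono nhdsWithin_le_nhds
    constructor
    · have h1 := H.lim_gsol hb (H.limG _ (xi_mem y))
      refine h1.congr' ?_
      filter_upwards [hne] with z hz
      exact (H.usol_eq_gsol hu hz).symm
    · have h1 := H.lim_gsol hb (H.limf _ (xi_mem y))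
      have h2 := H.lim_gsol hb (H.limh _ (xi_mem y))
      have cN : Tendsto dN (𝓝[Dom R] y) (𝓝 (dN y)) := by
        have : ContinuousAt dN y := by
          unfold dN
          exact (continuousAt_id.norm.inv₀ (norm_ne_zero_iff.mpr h0)).smul
            (innerSL ℝ).continuous.continuousAt
        exact this.tendsto.mono_left nhdsWithin_le_nhds
      have cC : Tendsto dC (𝓝[Dom R] y) (𝓝 (dC y)) := by
        have : ContinuousAt dC y := by
          unfold dC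
          have h3 : ContinuousAt (fun z : E3 => ‖z‖⁻¹) y :=
            continuousAt_id.norm.inv₀ (norm_ne_zero_iff.mpr h0)
          have h4 : ContinuousAt (fun z : E3 => z 2) y :=
            (EuclideanSpace.proj (2 : Fin 3) : E3 →L[ℝ] ℝ).continuous.continuousAt
          exact (h3.smul continuousAt_const).sub
            ((h4.mul (h3.pow 3)).smul (innerSL ℝ).continuous.continuousAt)
        exact this.tendsto.mono_left nhdsWithin_le_nhds
      have h5 := (h1.smul cN).add (h2.smul cC)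
      simp only [zero_smul, add_zero] at h5
      refine h5.congr' ?_
      filter_upwards [hne, self_mem_nhdsWithin] with z hz hzD
      have hO := rc_mem_Om H.prof hzD hz
      have h6 := hasFDerivAt_comp_rc hz (H.dg hO)
      have h7 : fderiv ℝ (usol ρ R0 X G u0) z = fderiv ℝ (gsol ρ X G) z :=
        (H.ev_gsol hu hz).fderiv_eq
      rw [h7]
      exact h6.fderiv.symm

end PData

end H85Sch
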