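import Pool.Agent.H85.Sch.EndStep
import Pool.Agent.H47.SD.LayExt

/-!
# MP_f4af34, block END: `end_step` from the interior solution near the origin
-/

set_option autoImplicit false

noncomputable section

namespace SF

theorem end_of_inner (hin : InnerStmt R0) {E : ℝ} (hE : E ≠ 0) (S : Lay E)
    (h : ∀ k, Even k → S.wr k = 0) : Pool.Agent.H31.SG.NotSchiffer :=
  end_of_ext hE S hin (SD.modes S h) SD.Icc_subset_X0 fun _ ha hb => SD.ext h ha hb

end SF
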