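import Mathlib

/-!
# Schiffer / Pompeiu in space: the geometry of the domain

`Dom R = {y | ‖y‖ < R (y₃/‖y‖)}` for a positive `C²` profile `R` on a neighbourhood of `[-1,1]`,
even and not constant on `[-1,1]`: all the geometric conditions of the frozen statement hold and
`Dom R` is not a ball.
-/

set_option autoImplicit false
open Filter Topology Set

namespace H85Sch

abbrev E3 := EuclideanSpace ℝ (Fin 3)

/-- third coordinate of the direction -/
noncomputable def xi (y : E3) : ℝ := y 2 / ‖y‖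

/-- the domain `‖y‖ < R (y₃/‖y‖)` -/
def Dom (R : ℝ → ℝ) : Set E3 := {y | ‖y‖ < R (xi y)}

theorem xi_mem (y : E3) : xi y ∈ Icc (-1 : ℝ) 1 := by
  unfold xi
  have h : |y 2| ≤ ‖y‖ := by
    have := EuclideanSpace.norm_eq y
    rw [this]
    apply Real.abs_le_sqrt
    rw [Fin.sum_univ_three]
    simp only [Real.norm_eq_abs, sq_abs]
    nlinarith [sq_nonneg (y 0), sq_nonneg (y 1)]
  rcases eq_or_ne y 0 with rfl | hy
  · simp
  · have hpos : 0 < ‖y‖ := norm_pos_iff.mpr hy
    have := abs_le.mp h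
    constructor
    · rw [le_div_iff₀ hpos]; linarith
    · rw [div_le_iff₀ hpos]; linarith

theorem xi_smul (y : E3) {t : ℝ} (ht : 0 < t) : xi (t • y) = xi y := by
  unfold xi
  rw [norm_smul, Real.norm_eq_abs, abs_of_pos ht]
  simp only [PiLp.smul_apply, smul_eq_mul]
  rw [mul_div_mul_left _ _ ht.ne']

theorem xi_neg (y : E3) : xi (-y) = -xi y := by
  unfold xi
  simp [neg_div]

theorem contDiffAt_xi {y : E3} (hy : y ≠ 0) {n : WithTop ℕ∞} : ContDiffAt ℝ n xi y := by
  unfold xi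
  apply ContDiffAt.div
  · have : ContDiff ℝ n (fun y : E3 => y 2) := by
      exact (EuclideanSpace.proj (2 : Fin 3) : E3 →L[ℝ] ℝ).contDiff
    exact this.contDiffAt
  · exact contDiffAt_norm ℝ hy
  · exact norm_ne_zero_iff.mpr hy

/-- any value in `[-1,1]` is attained by a unit vector -/
theorem exists_unit (x : ℝ) (hx : x ∈ Icc (-1 : ℝ) 1) : ∃ y : E3, ‖y‖ = 1 ∧ xi y = x := by
  have h1 : 0 ≤ 1 - x ^ 2 := by nlinarith [hx.1, hx.2]
  refine ⟨!₂[Real.sqrt (1 - x ^ 2), 0, x], ?_, ?_⟩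
  · rw [EuclideanSpace.norm_eq, Fin.sum_univ_three]
    simp [Real.sq_sqrt h1]
  · have hn : ‖(!₂[Real.sqrt (1 - x ^ 2), 0, x] : E3)‖ = 1 := by
      rw [EuclideanSpace.norm_eq, Fin.sum_univ_three]
      simp [Real.sq_sqrt h1]
    unfold xi
    rw [hn]
    simp


/-- hypotheses on the profile -/
structure Prof (R : ℝ → ℝ) (e : ℝ) : Prop where
  he : 0 < e
  smooth : ContDiffOn ℝ 2 R (Ioo (-1 - e) (1 + e))
  pos : ∀ x ∈ Icc (-1 : ℝ) 1, 0 < R x

namespace Prof

variable {R : ℝ → ℝ} {e : ℝ}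

theorem sub (h : Prof R e) : Icc (-1 : ℝ) 1 ⊆ Ioo (-1 - e) (1 + e) := by
  intro x hx
  have := h.he
  exact ⟨by linarith [hx.1], by linarith [hx.2]⟩

theorem cdAt (h : Prof R e) {x : ℝ} (hx : x ∈ Icc (-1 : ℝ) 1) : ContDiffAt ℝ 2 R x :=
  h.smooth.contDiffAt (Ioo_mem_nhds (h.sub hx).1 (h.sub hx).2)

theorem contOn (h : Prof R e) : ContinuousOn R (Icc (-1 : ℝ) 1) :=
  h.smooth.continuousOn.mono h.sub

theorem exists_lower (h : Prof R e) : ∃ m : ℝ, 0 < m ∧ ∀ x ∈ Icc (-1 : ℝ) 1, m ≤ R x := by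
  obtain ⟨x0, hx0, hmin⟩ := isCompact_Icc.exists_isMinOn
    (nonempty_Icc.mpr (by norm_num : (-1 : ℝ) ≤ 1)) h.contOn
  exact ⟨R x0, h.pos x0 hx0, fun x hx => hmin hx⟩

theorem exists_upper (h : Prof R e) : ∃ M : ℝ, 0 < M ∧ ∀ x ∈ Icc (-1 : ℝ) 1, R x ≤ M := by
  obtain ⟨x0, hx0, hmax⟩ := isCompact_Icc.exists_isMaxOn
    (nonempty_Icc.mpr (by norm_num : (-1 : ℝ) ≤ 1)) h.contOn
  exact ⟨R x0, h.pos x0 hx0, fun x hx => hmax hx⟩

theorem zero_mem (h : Prof R e) : (0 : E3) ∈ Dom R := by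
  simp only [Dom, Set.mem_ofPred_eq, norm_zero]
  exact h.pos _ (xi_mem 0)

theorem bounded (h : Prof R e) : Bornology.IsBounded (Dom R) := by
  obtain ⟨M, _, hM⟩ := h.exists_upper
  refine (Metric.isBounded_ball (x := (0 : E3)) (r := M)).subset ?_
  intro y hy
  simp only [mem_ball_zero_iff]
  exact lt_of_lt_of_le hy (hM _ (xi_mem y))

theorem star (h : Prof R e) : StarConvex ℝ (0 : E3) (Dom R) := by
  rw [starConvex_zero_iff]
  intro y hy a ha0 ha1
  rcases eq_or_lt_of_le ha0 with rfl | hpos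
  · rw [zero_smul]; exact h.zero_mem
  · simp only [Dom, Set.mem_ofPred_eq] at hy ⊢
    rw [xi_smul y hpos, norm_smul, Real.norm_eq_abs, abs_of_pos hpos]
    calc a * ‖y‖ ≤ 1 * ‖y‖ := by gcongr
      _ = ‖y‖ := one_mul _
      _ < R (xi y) := hy

theorem connected (h : Prof R e) : IsConnected (Dom R) :=
  (h.star.isPathConnected h.zero_mem).isConnected

/-- the defining function -/
noncomputable def phi (R : ℝ → ℝ) (m : ℝ) (y : E3) : ℝ :=
  ‖y‖ ^ 2 - ((1 - Real.smoothTransition (4 * ‖y‖ ^ 2 / m ^ 2 - 1)) * m ^ 2 +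
    Real.smoothTransition (4 * ‖y‖ ^ 2 / m ^ 2 - 1) * R (xi y) ^ 2)

theorem phi_small {m : ℝ} (hm : 0 < m) {y : E3} (hy : ‖y‖ ^ 2 ≤ m ^ 2 / 4) :
    phi R m y = ‖y‖ ^ 2 - m ^ 2 := by
  unfold phi
  have : 4 * ‖y‖ ^ 2 / m ^ 2 - 1 ≤ 0 := by
    have : 4 * ‖y‖ ^ 2 / m ^ 2 ≤ 1 := by
      rw [div_le_one (by positivity)]; linarith
    linarith
  rw [Real.smoothTransition.zero_of_nonpos this]
  ring

theorem phi_large {m : ℝ} (hm : 0 < m) {y : E3} (hy : m ^ 2 / 2 ≤ ‖y‖ ^ 2) :
    phi R m y = ‖y‖ ^ 2 - R (xi y) ^ 2 := by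
  unfold phi
  have : 1 ≤ 4 * ‖y‖ ^ 2 / m ^ 2 - 1 := by
    have : 2 ≤ 4 * ‖y‖ ^ 2 / m ^ 2 := by
      rw [le_div_iff₀ (by positivity)]; linarith
    linarith
  rw [Real.smoothTransition.one_of_one_le this]
  ring

theorem phi_neg_iff (h : Prof R e) {m : ℝ} (hm : 0 < m)
    (hmR : ∀ x ∈ Icc (-1 : ℝ) 1, m ≤ R x) (y : E3) : phi R m y < 0 ↔ y ∈ Dom R := by
  have hR := hmR _ (xi_mem y)
  have hRpos := h.pos _ (xi_mem y)
  simp only [Dom, Set.mem_ofPred_eq]
  rcases le_or_gt (m ^ 2 / 2) (‖y‖ ^ 2) with hc | hc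
  · rw [phi_large hm hc]
    constructor
    · intro hlt
      exact lt_of_pow_lt_pow_left₀ 2 hRpos.le (by linarith)
    · intro hlt
      have := pow_lt_pow_left₀ hlt (norm_nonneg y) (two_ne_zero)
      linarith
  · have hy : ‖y‖ < m := by
      apply lt_of_pow_lt_pow_left₀ 2 hm.le
      nlinarith [sq_nonneg m]
    refine ⟨fun _ => lt_of_lt_of_le hy hR, fun _ => ?_⟩
    unfold phi
    set κ := Real.smoothTransition (4 * ‖y‖ ^ 2 / m ^ 2 - 1) with hκ
    have hκ0 : 0 ≤ κ := Real.smoothTransition.nonneg _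
    have hκ1 : κ ≤ 1 := Real.smoothTransition.le_one _
    have h2 : m ^ 2 ≤ R (xi y) ^ 2 := by gcongr
    have h3 : m ^ 2 ≤ (1 - κ) * m ^ 2 + κ * R (xi y) ^ 2 := by nlinarith
    nlinarith [sq_nonneg m, pow_pos hm 2]

theorem phi_contDiff (h : Prof R e) {m : ℝ} (hm : 0 < m) : ContDiff ℝ 2 (phi R m) := by
  rw [contDiff_iff_contDiffAt]
  intro y
  rcases eq_or_ne y 0 with rfl | hy
  · have hev : phi R m =ᶠ[𝓝 (0 : E3)] fun y => ‖y‖ ^ 2 - m ^ 2 := by
      have : Metric.ball (0 : E3) (m / 2) ∈ 𝓝 (0 : E3) := Metric.ball_mem_nhds _ (by positivity)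
      filter_upwards [this] with z hz
      apply phi_small hm
      rw [mem_ball_zero_iff] at hz
      have := pow_le_pow_left₀ (norm_nonneg z) hz.le 2
      nlinarith
    refine ContDiffAt.congr_of_eventuallyEq ?_ hev
    exact ((contDiff_norm_sq ℝ).sub contDiff_const).contDiffAt
  · unfold phi
    have hn : ContDiffAt ℝ 2 (fun y : E3 => ‖y‖ ^ 2) y := (contDiff_norm_sq ℝ).contDiffAt
    have hk : ContDiffAt ℝ 2
        (fun y : E3 => Real.smoothTransition (4 * ‖y‖ ^ 2 / m ^ 2 - 1)) y := by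
      have h1 : ContDiffAt ℝ 2 (fun y : E3 => 4 * ‖y‖ ^ 2 / m ^ 2 - 1) y :=
        ((contDiffAt_const.mul hn).div_const _).sub contDiffAt_const
      exact (Real.smoothTransition.contDiffAt (n := 2)).comp y h1
    have hR : ContDiffAt ℝ 2 (fun y : E3 => R (xi y)) y :=
      (h.cdAt (xi_mem y)).comp y (contDiffAt_xi hy)
    exact hn.sub (((contDiffAt_const.sub hk).mul contDiffAt_const).add (hk.mul (hR.pow 2)))


theorem norm_pos_of_bdry (h : Prof R e) {y : E3} (hy : ‖y‖ = R (xi y)) : 0 < ‖y‖ := by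
  rw [hy]; exact h.pos _ (xi_mem y)

theorem phi_zero_iff (h : Prof R e) {m : ℝ} (hm : 0 < m)
    (hmR : ∀ x ∈ Icc (-1 : ℝ) 1, m ≤ R x) (y : E3) : phi R m y = 0 ↔ ‖y‖ = R (xi y) := by
  have hR := hmR _ (xi_mem y)
  have hRpos := h.pos _ (xi_mem y)
  rcases le_or_gt (m ^ 2 / 2) (‖y‖ ^ 2) with hc | hc
  · rw [phi_large hm hc, sub_eq_zero]
    constructor
    · intro h2
      exact (pow_left_inj₀ (norm_nonneg y) hRpos.le two_ne_zero).mp h2
    · intro h2; rw [h2]
  · have hy : ‖y‖ < m := by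
      apply lt_of_pow_lt_pow_left₀ 2 hm.le
      nlinarith [sq_nonneg m]
    have hlt : ‖y‖ < R (xi y) := lt_of_lt_of_le hy hR
    have hneg : phi R m y < 0 := (h.phi_neg_iff hm hmR y).mpr hlt
    constructor
    · intro h0; exact absurd h0 hneg.ne
    · intro h0; exact absurd h0 hlt.ne

theorem phi_fderiv_ne (h : Prof R e) {m : ℝ} (hm : 0 < m)
    (hmR : ∀ x ∈ Icc (-1 : ℝ) 1, m ≤ R x) (y : E3) (hy : phi R m y = 0) :
    fderiv ℝ (phi R m) y ≠ 0 := by
  have hb := (h.phi_zero_iff hm hmR y).mp hy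
  have hpos := h.norm_pos_of_bdry hb
  have hR := hmR _ (xi_mem y)
  have hle : m ≤ ‖y‖ := by rw [hb]; exact hR
  intro h0
  have hd : DifferentiableAt ℝ (phi R m) y :=
    (h.phi_contDiff hm).contDiffAt.differentiableAt two_ne_zero
  have h1 : HasDerivAt (fun t : ℝ => phi R m (t • y)) ((fderiv ℝ (phi R m) y) y) 1 := by
    have hline : HasDerivAt (fun t : ℝ => t • y) y 1 := by
      simpa using (hasDerivAt_id (1 : ℝ)).smul_const y
    have hd' : HasFDerivAt (phi R m) (fderiv ℝ (phi R m) y) ((1 : ℝ) • y) := by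
      rw [one_smul]; exact hd.hasFDerivAt
    exact hd'.comp_hasDerivAt 1 hline
  have h2 : HasDerivAt (fun t : ℝ => phi R m (t • y)) (2 * ‖y‖ ^ 2) 1 := by
    have hev : (fun t : ℝ => phi R m (t • y)) =ᶠ[𝓝 1]
        fun t => t ^ 2 * ‖y‖ ^ 2 - R (xi y) ^ 2 := by
      have : Ioi (3 / 4 : ℝ) ∈ 𝓝 (1 : ℝ) := Ioi_mem_nhds (by norm_num)
      filter_upwards [this] with t ht
      have ht' : (3 / 4 : ℝ) < t := ht
      have htp : 0 < t := by linarith
      have hnorm : ‖t • y‖ = t * ‖y‖ := by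
        rw [norm_smul, Real.norm_eq_abs, abs_of_pos htp]
      rw [phi_large hm, xi_smul y htp, hnorm, mul_pow]
      rw [hnorm]
      have h34 : (3 / 4) * m ≤ t * ‖y‖ := by
        apply mul_le_mul ht'.le hle hm.le htp.le
      have := pow_le_pow_left₀ (by positivity : (0 : ℝ) ≤ 3 / 4 * m) h34 2
      nlinarith [sq_nonneg m]
    refine HasDerivAt.congr_of_eventuallyEq ?_ hev
    have := ((hasDerivAt_pow 2 (1 : ℝ)).mul_const (‖y‖ ^ 2)).sub_const (R (xi y) ^ 2)
    simpa using this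
  have h3 := h1.unique h2
  rw [h0] at h3
  simp only [zero_apply] at h3
  have : 0 < 2 * ‖y‖ ^ 2 := by positivity
  linarith

theorem isOpen_dom (h : Prof R e) : IsOpen (Dom R) := by
  obtain ⟨m, hm, hmR⟩ := h.exists_lower
  have : Dom R = {y | phi R m y < 0} := by
    ext y; exact (h.phi_neg_iff hm hmR y).symm
  rw [this]
  exact isOpen_lt (h.phi_contDiff hm).continuous continuous_const

theorem frontier_eq (h : Prof R e) : frontier (Dom R) = {y | ‖y‖ = R (xi y)} := by
  obtain ⟨m, hm, hmR⟩ := h.exists_lower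
  have hdom : Dom R = {y | phi R m y < 0} := by
    ext y; exact (h.phi_neg_iff hm hmR y).symm
  ext y
  rw [h.isOpen_dom.frontier_eq]
  constructor
  · rintro ⟨hc, hn⟩
    have h1 : phi R m y ≤ 0 := by
      have hcl : IsClosed {y | phi R m y ≤ 0} :=
        isClosed_le (h.phi_contDiff hm).continuous continuous_const
      have : closure (Dom R) ⊆ {y | phi R m y ≤ 0} := by
        apply closure_minimal _ hcl
        intro z hz
        exact ((h.phi_neg_iff hm hmR z).mpr hz).le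
      exact this hc
    have h2 : ¬ phi R m y < 0 := fun hlt => hn ((h.phi_neg_iff hm hmR y).mp hlt)
    exact (h.phi_zero_iff hm hmR y).mp (le_antisymm h1 (not_lt.mp h2))
  · intro hy
    have hb : ‖y‖ = R (xi y) := hy
    have hpos := h.norm_pos_of_bdry hb
    refine ⟨?_, fun hd => ?_⟩
    · rw [mem_closure_iff_seq_limit]
      refine ⟨fun n : ℕ => (1 - 1 / ((n : ℝ) + 2)) • y, fun n => ?_, ?_⟩
      · have hn : (0 : ℝ) < 1 - 1 / ((n : ℝ) + 2) := by
          have : 1 / ((n : ℝ) + 2) < 1 := by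
            rw [div_lt_one (by positivity)]
            have : (0 : ℝ) ≤ n := Nat.cast_nonneg n
            linarith
          linarith
        simp only [Dom, Set.mem_ofPred_eq]
        rw [xi_smul y hn, norm_smul, Real.norm_eq_abs, abs_of_pos hn, ← hb]
        have : (0 : ℝ) < 1 / ((n : ℝ) + 2) := by positivity
        nlinarith
      · have h0 : Tendsto (fun n : ℕ => (1 : ℝ) / ((n : ℝ) + 2)) atTop (𝓝 0) := by
          apply Tendsto.div_atTop tendsto_const_nhds
          exact tendsto_atTop_add_const_right _ _ tendsto_natCast_atTop_atTop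
        have h1 : Tendsto (fun n : ℕ => (1 - 1 / ((n : ℝ) + 2)) • y) atTop (𝓝 ((1 - 0 : ℝ) • y)) :=
          (tendsto_const_nhds.sub h0).smul_const y
        simpa using h1
    · exact absurd hb (ne_of_lt hd)

/-- the boundary is homeomorphic to the unit sphere -/
theorem homeo (h : Prof R e) :
    Nonempty (frontier (Dom R) ≃ₜ Metric.sphere (0 : E3) 1) := by
  have hfr := h.frontier_eq
  have hbd : ∀ y : E3, y ∈ frontier (Dom R) → ‖y‖ = R (xi y) := by
    intro y hy
    rw [hfr] at hy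
    exact hy
  have hne : ∀ y : frontier (Dom R), (y : E3) ≠ 0 := by
    intro y h0
    have hp := h.norm_pos_of_bdry (hbd _ y.2)
    rw [h0, norm_zero] at hp
    exact lt_irrefl _ hp
  refine ⟨{
    toFun := fun y => ⟨(‖(y : E3)‖)⁻¹ • (y : E3), ?_⟩
    invFun := fun z => ⟨R (xi z) • (z : E3), ?_⟩
    left_inv := ?_
    right_inv := ?_
    continuous_toFun := ?_
    continuous_invFun := ?_ }⟩
  · rw [mem_sphere_zero_iff_norm, norm_smul, norm_inv, norm_norm]
    exact inv_mul_cancel₀ (norm_ne_zero_iff.mpr (hne y))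
  · rw [hfr]
    have hR := h.pos _ (xi_mem (z : E3))
    simp only [Set.mem_ofPred_eq]
    rw [xi_smul _ hR, norm_smul, Real.norm_eq_abs, abs_of_pos hR, norm_eq_of_mem_sphere, mul_one]
  · intro y
    apply Subtype.ext
    have hy0 : 0 < ‖(y : E3)‖ := norm_pos_iff.mpr (hne y)
    have hb : ‖(y : E3)‖ = R (xi y) := hbd _ y.2
    simp only
    rw [xi_smul _ (inv_pos.mpr hy0), ← hb, smul_smul, mul_inv_cancel₀ hy0.ne', one_smul]
  · intro z
    apply Subtype.ext
    have hR := h.pos _ (xi_mem (z : E3))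
    simp only
    rw [norm_smul, Real.norm_eq_abs, abs_of_pos hR, norm_eq_of_mem_sphere, mul_one, smul_smul,
      inv_mul_cancel₀ hR.ne', one_smul]
  · apply Continuous.subtype_mk
    apply Continuous.fun_smul
    · exact (continuous_subtype_val.norm).inv₀ (fun y => norm_ne_zero_iff.mpr (hne y))
    · exact continuous_subtype_val
  · apply Continuous.subtype_mk
    apply Continuous.fun_smul
    · rw [continuous_iff_continuousAt]
      intro z
      have hz : (z : E3) ≠ 0 := by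
        intro h0
        have := norm_eq_of_mem_sphere z
        rw [h0, norm_zero] at this
        exact zero_ne_one this
      have h1 : ContinuousAt (fun y : E3 => R (xi y)) (z : E3) :=
        ((h.cdAt (xi_mem (z : E3))).comp _ (contDiffAt_xi hz)).continuousAt
      exact ContinuousAt.comp (g := fun y : E3 => R (xi y)) (f := Subtype.val) h1
        continuous_subtype_val.continuousAt
    · exact continuous_subtype_val

theorem not_ball (h : Prof R e) (heven : ∀ x ∈ Icc (-1 : ℝ) 1, R (-x) = R x)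
    (hnc : ∃ x ∈ Icc (-1 : ℝ) 1, R x ≠ R 0) :
    ¬ ∃ (z : E3) (r : ℝ), Dom R = Metric.ball z r := by
  rintro ⟨z, r, hD⟩
  have hsym : ∀ y : E3, y ∈ Dom R → -y ∈ Dom R := by
    intro y hy
    simp only [Dom, Set.mem_ofPred_eq] at hy ⊢
    rw [norm_neg, xi_neg, heven _ (xi_mem y)]
    exact hy
  have h0 := h.zero_mem
  have hr : 0 < r := by
    rw [hD] at h0
    exact Metric.pos_of_mem_ball h0
  -- the centre is 0
  have hz : z = 0 := by
    by_contra hz
    have hzn : 0 < ‖z‖ := norm_pos_iff.mpr hz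
    set t := max 0 (r - ‖z‖) with ht
    have ht0 : 0 ≤ t := le_max_left _ _
    have htr : t < r := by
      rw [ht]; apply max_lt hr; linarith
    have h1 : z + (t / ‖z‖) • z ∈ Dom R := by
      rw [hD, mem_ball_iff_norm]
      rw [add_sub_cancel_left, norm_smul, Real.norm_eq_abs, abs_of_nonneg (by positivity),
        div_mul_cancel₀ _ hzn.ne']
      exact htr
    have h2 := hsym _ h1
    rw [hD, mem_ball_iff_norm] at h2
    have h3 : -(z + (t / ‖z‖) • z) - z = -((2 + t / ‖z‖) • z) := by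
      module
    rw [h3, norm_neg, norm_smul, Real.norm_eq_abs, abs_of_nonneg (by positivity), add_mul,
      div_mul_cancel₀ _ hzn.ne'] at h2
    have h4 : r - ‖z‖ ≤ t := le_max_right _ _
    linarith
  subst hz
  -- then R is constant
  have hconst : ∀ x ∈ Icc (-1 : ℝ) 1, R x = r := by
    intro x hx
    obtain ⟨y, hy1, hyx⟩ := exists_unit x hx
    have hR := h.pos x hx
    have key : ∀ t : ℝ, 0 < t → (t < R x ↔ t < r) := by
      intro t ht
      have h1 : t • y ∈ Dom R ↔ t < R x := by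
        simp only [Dom, Set.mem_ofPred_eq]
        rw [xi_smul y ht, norm_smul, Real.norm_eq_abs, abs_of_pos ht, hy1, mul_one, hyx]
      have h2 : t • y ∈ Dom R ↔ t < r := by
        rw [hD, mem_ball_zero_iff, norm_smul, Real.norm_eq_abs, abs_of_pos ht, hy1, mul_one]
      exact h1.symm.trans h2
    rcases lt_trichotomy (R x) r with hlt | heq | hgt
    · exact absurd ((key (R x) hR).mpr hlt) (lt_irrefl _)
    · exact heq
    · exact absurd ((key r hr).mp hgt) (lt_irrefl _)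
  obtain ⟨x, hx, hne⟩ := hnc
  apply hne
  rw [hconst x hx, hconst 0 ⟨by norm_num, by norm_num⟩]

end Prof

end H85Sch
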