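import Mathlib

/-!
# Schiffer / Pompeiu in space: radial estimates for the modes with `|1 - λ/s²| ≤ 1`

Layer `[R0, ρ]`, `w = ρ - R0`, `κ = 2 w / R0 + w²/2 < 1`.
* homogeneous solutions `J' = J1`, `J1' = -(2/s) J1 - q J` with `J ρ = 1`, `|J1 ρ| ≤ K`;
* the first order system `z' = -y - f1`, `y' = -(2/s) y + q z + f2`, `z ρ = 0`
  (for `f1 = 0` this is `z'' + (2/s) z' + q z = - f2`);
* the value `y ρ` is the Wronskian functional `∫ (s/ρ)² (J f2 - J1 f1)`.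
All integrals of `|f|` are kept inside (no `w² sup |f|`).
-/

set_option autoImplicit false
open Filter Topology Set MeasureTheory intervalIntegral

namespace H85Sch

/-- fundamental theorem of calculus on `[s, ρ]` for a function differentiable within `[R0, ρ]` -/
theorem ftc_layer {R0 ρ : ℝ} {F F' : ℝ → ℝ}
    (hF : ∀ s ∈ Icc R0 ρ, HasDerivWithinAt F (F' s) (Icc R0 ρ) s)
    (hF' : ContinuousOn F' (Icc R0 ρ)) {s : ℝ} (hs : s ∈ Icc R0 ρ) :
    ∫ t in s..ρ, F' t = F ρ - F s := by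
  have hsub : Icc s ρ ⊆ Icc R0 ρ := Icc_subset_Icc hs.1 le_rfl
  apply integral_eq_sub_of_hasDeriv_right_of_le hs.2
  · exact fun t ht => ((hF t (hsub ht)).continuousWithinAt).mono hsub
  · intro t ht
    have h1 := hF t (hsub (Ioo_subset_Icc_self ht))
    have h2 : HasDerivAt F (F' t) t :=
      h1.hasDerivAt (Icc_mem_nhds (lt_of_le_of_lt hs.1 ht.1) ht.2)
    exact h2.hasDerivWithinAt
  · exact (hF'.mono hsub).intervalIntegrable_of_Icc hs.2

/-- a function on the layer is bounded by its end value plus the integral of its derivative -/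
theorem abs_le_of_deriv {R0 ρ : ℝ} {F F' : ℝ → ℝ}
    (hF : ∀ s ∈ Icc R0 ρ, HasDerivWithinAt F (F' s) (Icc R0 ρ) s)
    (hF' : ContinuousOn F' (Icc R0 ρ)) {s : ℝ} (hs : s ∈ Icc R0 ρ)
    {B : ℝ → ℝ} (hB : IntervalIntegrable B volume s ρ) (hle : ∀ t ∈ Icc s ρ, |F' t| ≤ B t) :
    |F s| ≤ |F ρ| + ∫ t in s..ρ, B t := by
  have h1 := ftc_layer hF hF' hs
  have h2 : F s = F ρ - ∫ t in s..ρ, F' t := by rw [h1]; ring
  rw [h2]
  have h3 : |∫ t in s..ρ, F' t| ≤ ∫ t in s..ρ, B t := by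
    have := norm_integral_le_of_norm_le hs.2
      (f := F') (g := B) (μ := volume) ?_ hB
    · simpa [Real.norm_eq_abs] using this
    · filter_upwards with t ht
      simpa [Real.norm_eq_abs] using hle t ⟨ht.1.le, ht.2⟩
  have h4 := abs_sub (F ρ) (∫ t in s..ρ, F' t)
  linarith


/-- the constant `κ` of the layer -/
noncomputable def kap (R0 ρ : ℝ) : ℝ := 2 / R0 * (ρ - R0) + (ρ - R0) ^ 2 / 2

/-- the constant `c = 1/(1-κ)` of the layer -/
noncomputable def cc (R0 ρ : ℝ) : ℝ := 1 / (1 - kap R0 ρ)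

/-- a solution `(z, y)` of the first order radial system on the layer -/
structure Sys (R0 ρ : ℝ) (q z y f1 f2 : ℝ → ℝ) : Prop where
  h0 : 0 < R0
  hlt : R0 < ρ
  hq : ∀ s ∈ Icc R0 ρ, |q s| ≤ 1
  cq : ContinuousOn q (Icc R0 ρ)
  c1 : ContinuousOn f1 (Icc R0 ρ)
  c2 : ContinuousOn f2 (Icc R0 ρ)
  hz : ∀ s ∈ Icc R0 ρ, HasDerivWithinAt z (-y s - f1 s) (Icc R0 ρ) s
  hy : ∀ s ∈ Icc R0 ρ, HasDerivWithinAt y (-(2 / s) * y s + q s * z s + f2 s) (Icc R0 ρ) s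

namespace Sys

variable {R0 ρ : ℝ} {q z y f1 f2 : ℝ → ℝ}

theorem cz (h : Sys R0 ρ q z y f1 f2) : ContinuousOn z (Icc R0 ρ) :=
  fun s hs => (h.hz s hs).continuousWithinAt

theorem cy (h : Sys R0 ρ q z y f1 f2) : ContinuousOn y (Icc R0 ρ) :=
  fun s hs => (h.hy s hs).continuousWithinAt

theorem cz' (h : Sys R0 ρ q z y f1 f2) : ContinuousOn (fun s => -y s - f1 s) (Icc R0 ρ) :=
  h.cy.neg.sub h.c1

theorem cy' (h : Sys R0 ρ q z y f1 f2) :
    ContinuousOn (fun s => -(2 / s) * y s + q s * z s + f2 s) (Icc R0 ρ) := by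
  have h0 : ContinuousOn (fun s : ℝ => -(2 / s)) (Icc R0 ρ) := by
    apply ContinuousOn.neg
    apply continuousOn_const.div continuousOn_id
    intro s hs
    exact (lt_of_lt_of_le h.h0 hs.1).ne'
  exact ((h0.mul h.cy).add (h.cq.mul h.cz)).add h.c2

theorem ii {f : ℝ → ℝ} (hf : ContinuousOn f (Icc R0 ρ)) {s : ℝ} (hs : s ∈ Icc R0 ρ) :
    IntervalIntegrable (fun t => |f t|) volume s ρ := by
  apply ContinuousOn.intervalIntegrable_of_Icc hs.2
  exact (hf.mono (Icc_subset_Icc hs.1 le_rfl)).abs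

theorem int_abs_mono {f : ℝ → ℝ} (hf : ContinuousOn f (Icc R0 ρ)) {s : ℝ} (hs : s ∈ Icc R0 ρ) :
    ∫ t in s..ρ, |f t| ≤ ∫ t in R0..ρ, |f t| := by
  have hR : R0 ∈ Icc R0 ρ := ⟨le_rfl, hs.1.trans hs.2⟩
  have h1 : IntervalIntegrable (fun t => |f t|) volume R0 s := by
    apply ContinuousOn.intervalIntegrable_of_Icc hs.1
    exact (hf.mono (Icc_subset_Icc le_rfl hs.2)).abs
  have h2 := integral_add_adjacent_intervals h1 (ii hf hs)
  have h3 : 0 ≤ ∫ t in R0..s, |f t| := integral_nonneg hs.1 (fun t _ => abs_nonneg _)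
  linarith

/-- `z` is controlled by a bound `Y` of `y` and the `L¹` norm of `f1` -/
theorem z_le (h : Sys R0 ρ q z y f1 f2) {Y : ℝ} (hY : ∀ s ∈ Icc R0 ρ, |y s| ≤ Y)
    {s : ℝ} (hs : s ∈ Icc R0 ρ) :
    |z s| ≤ |z ρ| + (ρ - s) * Y + ∫ t in s..ρ, |f1 t| := by
  have hB : IntervalIntegrable (fun t => Y + |f1 t|) volume s ρ :=
    intervalIntegrable_const.add (ii h.c1 hs)
  have h1 := abs_le_of_deriv h.hz h.cz' hs hB (fun t ht => by
    have ht' : t ∈ Icc R0 ρ := ⟨hs.1.trans ht.1, ht.2⟩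
    calc |(-y t - f1 t)| ≤ |(-y t)| + |f1 t| := abs_sub _ _
      _ ≤ Y + |f1 t| := by rw [abs_neg]; gcongr; exact hY t ht')
  rw [integral_add intervalIntegrable_const (ii h.c1 hs), intervalIntegral.integral_const, smul_eq_mul] at h1
  linarith

/-- pointwise bound of `y` from a bound `Y` of `y` on the whole layer -/
theorem y_le_aux (h : Sys R0 ρ q z y f1 f2) {Y : ℝ} (hY0 : 0 ≤ Y)
    (hY : ∀ s ∈ Icc R0 ρ, |y s| ≤ Y) {s : ℝ} (hs : s ∈ Icc R0 ρ) :
    |y s| ≤ |y ρ| + 2 / R0 * (ρ - s) * Y + (ρ - s) * |z ρ| + (ρ - s) ^ 2 / 2 * Y +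
      (ρ - s) * (∫ t in R0..ρ, |f1 t|) + ∫ t in s..ρ, |f2 t| := by
  set F1 := ∫ t in R0..ρ, |f1 t| with hF1
  have hlin : IntervalIntegrable (fun t => (ρ - t) * Y) volume s ρ :=
    ((continuous_const.sub continuous_id).mul continuous_const).intervalIntegrable _ _
  have hB : IntervalIntegrable
      (fun t => (2 / R0 * Y + |z ρ| + F1) + ((ρ - t) * Y + |f2 t|)) volume s ρ :=
    intervalIntegrable_const.add (hlin.add (ii h.c2 hs))
  have h1 := abs_le_of_deriv h.hy h.cy' hs hB (fun t ht => by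
    have ht' : t ∈ Icc R0 ρ := ⟨hs.1.trans ht.1, ht.2⟩
    have ht0 : 0 < t := lt_of_lt_of_le h.h0 ht'.1
    have e1 : |(-(2 / t) * y t)| ≤ 2 / R0 * Y := by
      rw [abs_mul, abs_neg, abs_of_pos (by positivity : 0 < 2 / t)]
      have h0 := h.h0
      apply mul_le_mul _ (hY t ht') (abs_nonneg _) (by positivity)
      exact div_le_div_of_nonneg_left (by norm_num) h.h0 ht'.1
    have e2 : |q t * z t| ≤ |z ρ| + (ρ - t) * Y + F1 := by
      rw [abs_mul]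
      calc |q t| * |z t| ≤ 1 * |z t| := by gcongr; exact h.hq t ht'
        _ = |z t| := one_mul _
        _ ≤ |z ρ| + (ρ - t) * Y + ∫ τ in t..ρ, |f1 τ| := h.z_le hY ht'
        _ ≤ |z ρ| + (ρ - t) * Y + F1 := by gcongr; exact int_abs_mono h.c1 ht'
    calc |(-(2 / t) * y t + q t * z t + f2 t)|
        ≤ |(-(2 / t) * y t + q t * z t)| + |f2 t| := abs_add_le _ _
      _ ≤ |(-(2 / t) * y t)| + |q t * z t| + |f2 t| := by gcongr; exact abs_add_le _ _
      _ ≤ 2 / R0 * Y + (|z ρ| + (ρ - t) * Y + F1) + |f2 t| := by gcongr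
      _ = (2 / R0 * Y + |z ρ| + F1) + ((ρ - t) * Y + |f2 t|) := by ring)
  rw [integral_add intervalIntegrable_const (hlin.add (ii h.c2 hs)),
    integral_add hlin (ii h.c2 hs), intervalIntegral.integral_const, smul_eq_mul] at h1
  have h2 : ∫ t in s..ρ, (ρ - t) * Y = (ρ - s) ^ 2 / 2 * Y := by
    rw [intervalIntegral.integral_mul_const]
    congr 1
    rw [intervalIntegral.integral_sub intervalIntegrable_const
      (continuous_id'.intervalIntegrable _ _), intervalIntegral.integral_const, integral_id,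
      smul_eq_mul]
    ring
  rw [h2] at h1
  nlinarith [h1]

/-- the sup bound of `y` -/
theorem y_le (h : Sys R0 ρ q z y f1 f2) (hk : kap R0 ρ < 1) {s : ℝ} (hs : s ∈ Icc R0 ρ) :
    |y s| ≤ cc R0 ρ * (|y ρ| + (ρ - R0) * |z ρ| + (ρ - R0) * (∫ t in R0..ρ, |f1 t|) +
      ∫ t in R0..ρ, |f2 t|) := by
  obtain ⟨s0, hs0, hmax⟩ := isCompact_Icc.exists_isMaxOn
    (nonempty_Icc.mpr h.hlt.le) h.cy.abs
  have hY : ∀ t ∈ Icc R0 ρ, |y t| ≤ |y s0| := fun t ht => hmax ht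
  have h1 := h.y_le_aux (abs_nonneg _) hY hs0
  have hw : ρ - s0 ≤ ρ - R0 := by linarith [hs0.1]
  have hw0 : 0 ≤ ρ - s0 := by linarith [hs0.2]
  have hF2 : ∫ t in s0..ρ, |f2 t| ≤ ∫ t in R0..ρ, |f2 t| := int_abs_mono h.c2 hs0
  have hF1 : 0 ≤ ∫ t in R0..ρ, |f1 t| := integral_nonneg h.hlt.le (fun t _ => abs_nonneg _)
  have hR0 := h.h0
  have e1 : 2 / R0 * (ρ - s0) * |y s0| ≤ 2 / R0 * (ρ - R0) * |y s0| := by gcongr
  have e2 : (ρ - s0) * |z ρ| ≤ (ρ - R0) * |z ρ| := by gcongr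
  have e3 : (ρ - s0) ^ 2 / 2 * |y s0| ≤ (ρ - R0) ^ 2 / 2 * |y s0| := by gcongr
  have e4 : (ρ - s0) * (∫ t in R0..ρ, |f1 t|) ≤ (ρ - R0) * (∫ t in R0..ρ, |f1 t|) := by gcongr
  have h2 : |y s0| * (1 - kap R0 ρ) ≤ |y ρ| + (ρ - R0) * |z ρ| +
      (ρ - R0) * (∫ t in R0..ρ, |f1 t|) + ∫ t in R0..ρ, |f2 t| := by
    unfold kap; nlinarith
  have hpos : 0 < 1 - kap R0 ρ := by linarith
  refine (hY s hs).trans ?_
  unfold cc
  rw [one_div, ← div_eq_inv_mul, le_div_iff₀ hpos]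
  exact h2

/-- end value functional: Wronskian identity -/
theorem functional {J J1 : ℝ → ℝ} (h : Sys R0 ρ q z y f1 f2)
    (hJ : Sys R0 ρ q J (fun s => -J1 s) 0 0)
    (hz : z ρ = 0) (hJρ : J ρ = 1) (hR : J R0 * y R0 + J1 R0 * z R0 = 0) :
    y ρ = ∫ t in R0..ρ, (t / ρ) ^ 2 * (J t * f2 t - J1 t * f1 t) := by
  have hρ : 0 < ρ := h.h0.trans h.hlt
  have hmem : R0 ∈ Icc R0 ρ := ⟨le_rfl, h.hlt.le⟩
  have cJ := hJ.cz
  have cJ1 : ContinuousOn J1 (Icc R0 ρ) :=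
    hJ.cy.neg.congr (fun s _ => by simp)
  have hd : ∀ s ∈ Icc R0 ρ, HasDerivWithinAt (fun s => s ^ 2 * (J s * y s + J1 s * z s))
      (s ^ 2 * (J s * f2 s - J1 s * f1 s)) (Icc R0 ρ) s := by
    intro s hs
    have hs0 : 0 < s := lt_of_lt_of_le h.h0 hs.1
    have dJ : HasDerivWithinAt J (J1 s) (Icc R0 ρ) s := by
      have := hJ.hz s hs
      simpa using this
    have dJ1 : HasDerivWithinAt J1 (-(2 / s) * J1 s - q s * J s) (Icc R0 ρ) s := by
      have h' := (hJ.hy s hs).neg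
      have e1 : (-fun s => -J1 s) = J1 := by ext t; simp
      rw [e1] at h'
      refine h'.congr_deriv ?_
      simp only [Pi.zero_apply]
      ring
    have h2 : HasDerivWithinAt (fun s : ℝ => s ^ 2) (2 * s) (Icc R0 ρ) s := by
      simpa using (hasDerivAt_pow 2 s).hasDerivWithinAt
    refine (h2.fun_mul ((dJ.fun_mul (h.hy s hs)).fun_add
      (dJ1.fun_mul (h.hz s hs)))).congr_deriv ?_
    field_simp
    ring
  have hc : ContinuousOn (fun s => s ^ 2 * (J s * f2 s - J1 s * f1 s)) (Icc R0 ρ) :=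
    (continuousOn_pow 2).mul ((cJ.mul h.c2).sub (cJ1.mul h.c1))
  have key := ftc_layer hd hc hmem
  simp only [hz, hR, hJρ, mul_zero, add_zero, one_mul, sub_zero] at key
  have h3 : ∫ t in R0..ρ, (t / ρ) ^ 2 * (J t * f2 t - J1 t * f1 t) =
      (∫ t in R0..ρ, t ^ 2 * (J t * f2 t - J1 t * f1 t)) / ρ ^ 2 := by
    rw [← intervalIntegral.integral_div]
    congr 1
    ext t
    rw [div_pow]; ring
  rw [h3, key]
  field_simp

/-- bounds of the normalised homogeneous solution -/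
theorem hom_le {J J1 : ℝ → ℝ} (hJ : Sys R0 ρ q J (fun s => -J1 s) 0 0)
    (hk : kap R0 ρ < 1) (hJρ : J ρ = 1) {K : ℝ} (hK : |J1 ρ| ≤ K) {s : ℝ} (hs : s ∈ Icc R0 ρ) :
    |J1 s| ≤ cc R0 ρ * (K + (ρ - R0)) ∧
      |J s| ≤ 1 + (ρ - s) * (cc R0 ρ * (K + (ρ - R0))) := by
  have hc : 0 ≤ cc R0 ρ := by
    unfold cc
    apply one_div_nonneg.mpr
    linarith
  have h1 : ∀ t ∈ Icc R0 ρ, |(-J1 t)| ≤ cc R0 ρ * (K + (ρ - R0)) := by
    intro t ht
    have := hJ.y_le hk ht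
    simp only [hJρ, abs_one, mul_one, Pi.zero_apply, abs_zero, intervalIntegral.integral_zero,
      mul_zero, add_zero] at this
    refine this.trans ?_
    gcongr
    rw [abs_neg]; exact hK
  refine ⟨by rw [← abs_neg]; exact h1 s hs, ?_⟩
  have := hJ.z_le h1 hs
  simpa [hJρ] using this

/-- refined pointwise bound of the derivative of the homogeneous solution -/
theorem hom_deriv_le {J J1 : ℝ → ℝ} (hJ : Sys R0 ρ q J (fun s => -J1 s) 0 0)
    (hk : kap R0 ρ < 1) (hJρ : J ρ = 1) {K : ℝ} (hK : |J1 ρ| ≤ K) {s : ℝ} (hs : s ∈ Icc R0 ρ) :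
    |J1 s| ≤ K + (ρ - s) +
      (2 / R0 * (ρ - s) + (ρ - s) ^ 2 / 2) * (cc R0 ρ * (K + (ρ - R0))) := by
  have hc : 0 ≤ cc R0 ρ := by
    unfold cc
    apply one_div_nonneg.mpr
    linarith
  have hK0 : 0 ≤ K := (abs_nonneg _).trans hK
  have hw : 0 ≤ ρ - R0 := by linarith [hJ.hlt]
  have h1 : ∀ t ∈ Icc R0 ρ, |(-J1 t)| ≤ cc R0 ρ * (K + (ρ - R0)) := by
    intro t ht
    rw [abs_neg]
    exact (hom_le hJ hk hJρ hK ht).1
  have := hJ.y_le_aux (by positivity) h1 hs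
  simp only [hJρ, abs_one, mul_one, Pi.zero_apply, abs_zero, intervalIntegral.integral_zero,
    mul_zero, add_zero, abs_neg] at this
  nlinarith [this]

/-- the end value of a regular solution: low modes (all integrals of `|f|` inside) -/
theorem end_le {J J1 : ℝ → ℝ} (h : Sys R0 ρ q z y f1 f2)
    (hJ : Sys R0 ρ q J (fun s => -J1 s) 0 0) (hk : kap R0 ρ < 1)
    (hz : z ρ = 0) (hJρ : J ρ = 1) (hR : J R0 * y R0 + J1 R0 * z R0 = 0)
    {K : ℝ} (hK : |J1 ρ| ≤ K) :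
    |y ρ| ≤ (∫ t in R0..ρ, |f2 t|) +
      cc R0 ρ * (K + (ρ - R0)) * (∫ t in R0..ρ, (ρ - t) * |f2 t|) +
      cc R0 ρ * (K + (ρ - R0)) * (∫ t in R0..ρ, |f1 t|) := by
  have hρ : 0 < ρ := h.h0.trans h.hlt
  have hmem : R0 ∈ Icc R0 ρ := ⟨le_rfl, h.hlt.le⟩
  set L := cc R0 ρ * (K + (ρ - R0)) with hL
  rw [h.functional hJ hz hJρ hR]
  have i1 := ii h.c1 hmem
  have i2 := ii h.c2 hmem
  have i3 : IntervalIntegrable (fun t => (ρ - t) * |f2 t|) volume R0 ρ := by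
    apply ContinuousOn.intervalIntegrable_of_Icc h.hlt.le
    exact (continuousOn_const.sub continuousOn_id).mul h.c2.abs
  have hB : IntervalIntegrable (fun t => (|f2 t| + L * ((ρ - t) * |f2 t|)) + L * |f1 t|)
      volume R0 ρ := (i2.add (i3.const_mul L)).add (i1.const_mul L)
  have hle : ∀ t ∈ Icc R0 ρ, |(t / ρ) ^ 2 * (J t * f2 t - J1 t * f1 t)| ≤
      (|f2 t| + L * ((ρ - t) * |f2 t|)) + L * |f1 t| := by
    intro t ht
    have ht0 : 0 < t := lt_of_lt_of_le h.h0 ht.1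
    obtain ⟨b1, b2⟩ := hom_le hJ hk hJρ hK ht
    have hr : (t / ρ) ^ 2 ≤ 1 := by
      apply pow_le_one₀ (by positivity)
      rw [div_le_one hρ]; exact ht.2
    rw [abs_mul, abs_of_nonneg (by positivity : (0 : ℝ) ≤ (t / ρ) ^ 2)]
    calc (t / ρ) ^ 2 * |J t * f2 t - J1 t * f1 t|
        ≤ 1 * (|J t * f2 t| + |J1 t * f1 t|) := by
          apply mul_le_mul hr (abs_sub _ _) (abs_nonneg _) zero_le_one
      _ = |J t| * |f2 t| + |J1 t| * |f1 t| := by rw [one_mul, abs_mul, abs_mul]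
      _ ≤ (1 + (ρ - t) * L) * |f2 t| + L * |f1 t| := by gcongr
      _ = _ := by ring
  have h1 : |∫ t in R0..ρ, (t / ρ) ^ 2 * (J t * f2 t - J1 t * f1 t)| ≤
      ∫ t in R0..ρ, ((|f2 t| + L * ((ρ - t) * |f2 t|)) + L * |f1 t|) := by
    have := norm_integral_le_of_norm_le h.hlt.le
      (f := fun t => (t / ρ) ^ 2 * (J t * f2 t - J1 t * f1 t))
      (g := fun t => (|f2 t| + L * ((ρ - t) * |f2 t|)) + L * |f1 t|) (μ := volume) ?_ hB
    · rwa [Real.norm_eq_abs] at this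
    · filter_upwards with t ht
      rw [Real.norm_eq_abs]
      exact hle t ⟨ht.1.le, ht.2⟩
  rw [integral_add (i2.add (i3.const_mul L)) (i1.const_mul L),
    integral_add i2 (i3.const_mul L), intervalIntegral.integral_const_mul,
    intervalIntegral.integral_const_mul] at h1
  exact h1

end Sys

end H85Sch
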