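import Pool.Agent.H85.Sch.Geom
import Pool.Agent.H36.SC.Polar
import Pool.Agent.H36.SC.Sum

/-!
# Schiffer / Pompeiu in space: from parametrised data to a function of `(r, x)`

Data on `U = (0,ρ) × I`, `I = (-1-e, 1+e)`: `X` (the radius), `G` (the value), `f = u_r`, `h = u_x`.
-/

set_option autoImplicit false
open Filter Topology Set

namespace H85Sch

open Pool.Agent.H36.SC (hd hd_apply rc cs)

/-- the parameter domain -/
def UU (ρ e : ℝ) : Set (ℝ × ℝ) := Ioo 0 ρ ×ˢ Ioo (-1 - e) (1 + e)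

/-- the image domain -/
def Om (R : ℝ → ℝ) (e : ℝ) : Set (ℝ × ℝ) := {p | p.2 ∈ Ioo (-1 - e) (1 + e) ∧ 0 < p.1 ∧ p.1 < R p.2}

theorem isOpen_UU (ρ e : ℝ) : IsOpen (UU ρ e) := isOpen_Ioo.prod isOpen_Ioo

/-- parametrised solution of the overdetermined problem in the meridian variables -/
structure PData (ρ e R0 c : ℝ) (R : ℝ → ℝ) (X G f h Xs Xx fs fx hs hx : ℝ × ℝ → ℝ) : Prop where
  prof : Prof R e
  hR0 : 0 < R0
  hRρ : R0 < ρ
  dX : ∀ p ∈ UU ρ e, HasFDerivAt X (hd (Xs p) (Xx p)) p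
  dG : ∀ p ∈ UU ρ e, HasFDerivAt G (hd (f p * Xs p) (h p + f p * Xx p)) p
  df : ∀ p ∈ UU ρ e, HasFDerivAt f (hd (fs p) (fx p)) p
  dh : ∀ p ∈ UU ρ e, HasFDerivAt h (hd (hs p) (hx p)) p
  cXs : ContinuousOn Xs (UU ρ e)
  cXx : ContinuousOn Xx (UU ρ e)
  cfs : ContinuousOn fs (UU ρ e)
  cfx : ContinuousOn fx (UU ρ e)
  chs : ContinuousOn hs (UU ρ e)
  chx : ContinuousOn hx (UU ρ e)
  pos : ∀ p ∈ UU ρ e, 0 < Xs p
  small : ∀ p ∈ UU ρ e, p.1 ≤ R0 → X p = p.1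
  limX : ∀ x ∈ Ioo (-1 - e) (1 + e), Tendsto (fun s => X (s, x)) (𝓝[<] ρ) (𝓝 (R x))
  pde : ∀ p ∈ UU ρ e, fs p / Xs p + 2 * f p / X p +
    ((1 - p.2 ^ 2) * (hx p - Xx p * hs p / Xs p) - 2 * p.2 * h p) / X p ^ 2 + G p = 0
  limG : ∀ x ∈ Icc (-1 : ℝ) 1, Tendsto G (𝓝[UU ρ e] (ρ, x)) (𝓝 c)
  limf : ∀ x ∈ Icc (-1 : ℝ) 1, Tendsto f (𝓝[UU ρ e] (ρ, x)) (𝓝 0)
  limh : ∀ x ∈ Icc (-1 : ℝ) 1, Tendsto h (𝓝[UU ρ e] (ρ, x)) (𝓝 0)

namespace PData

variable {ρ e R0 c : ℝ} {R : ℝ → ℝ} {X G f h Xs Xx fs fx hs hx : ℝ × ℝ → ℝ}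

theorem sline (H : PData ρ e R0 c R X G f h Xs Xx fs fx hs hx) {x : ℝ}
    (hx' : x ∈ Ioo (-1 - e) (1 + e)) {s : ℝ} (hs' : s ∈ Ioo 0 ρ) :
    HasDerivAt (fun s => X (s, x)) (Xs (s, x)) s := by
  have h1 := H.dX (s, x) ⟨hs', hx'⟩
  have h2 : HasDerivAt (fun s : ℝ => (s, x)) ((1 : ℝ), (0 : ℝ)) s :=
    (hasDerivAt_id s).prodMk (hasDerivAt_const s x)
  have h3 := h1.comp_hasDerivAt s h2
  have e1 : (hd (Xs (s, x)) (Xx (s, x))) ((1 : ℝ), (0 : ℝ)) = Xs (s, x) := by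
    rw [hd_apply]; simp
  rw [e1] at h3
  exact h3

theorem mono (H : PData ρ e R0 c R X G f h Xs Xx fs fx hs hx) {x : ℝ}
    (hx' : x ∈ Ioo (-1 - e) (1 + e)) : StrictMonoOn (fun s => X (s, x)) (Ioo 0 ρ) := by
  apply strictMonoOn_of_deriv_pos (convex_Ioo 0 ρ)
  · exact fun s hs' => (H.sline hx' hs').continuousAt.continuousWithinAt
  · intro s hs'
    rw [interior_Ioo] at hs'
    rw [(H.sline hx' hs').deriv]
    exact H.pos _ ⟨hs', hx'⟩

theorem lt_R (H : PData ρ e R0 c R X G f h Xs Xx fs fx hs hx) {x : ℝ}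
    (hx' : x ∈ Ioo (-1 - e) (1 + e)) {s : ℝ} (hs' : s ∈ Ioo 0 ρ) : X (s, x) < R x := by
  set s1 := (s + ρ) / 2 with hs1
  have h1 : s1 ∈ Ioo 0 ρ := ⟨by linarith [hs'.1, hs'.2], by linarith [hs'.2]⟩
  have h2 : s < s1 := by linarith [hs'.2]
  have h3 : X (s, x) < X (s1, x) := H.mono hx' hs' h1 h2
  have h4 : X (s1, x) ≤ R x := by
    apply ge_of_tendsto (H.limX x hx')
    have : Ioo s1 ρ ∈ 𝓝[<] ρ := Ioo_mem_nhdsLT h1.2
    filter_upwards [this] with t ht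
    exact (H.mono hx' h1 ⟨h1.1.trans ht.1, ht.2⟩ ht.1).le
  linarith

theorem X_pos (H : PData ρ e R0 c R X G f h Xs Xx fs fx hs hx) {x : ℝ}
    (hx' : x ∈ Ioo (-1 - e) (1 + e)) {s : ℝ} (hs' : s ∈ Ioo 0 ρ) : 0 < X (s, x) := by
  set s1 := min s R0 / 2 with hs1
  have hm : 0 < min s R0 := lt_min hs'.1 H.hR0
  have h1 : s1 ∈ Ioo 0 ρ := ⟨by positivity, by
    have : min s R0 ≤ s := min_le_left _ _
    linarith [hs'.2]⟩
  have h2 : s1 < s := by
    have : min s R0 ≤ s := min_le_left _ _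
    linarith
  have h3 : X (s1, x) < X (s, x) := H.mono hx' h1 hs' h2
  have h4 : X (s1, x) = s1 := H.small _ ⟨h1, hx'⟩ (by
    have : min s R0 ≤ R0 := min_le_right _ _
    simp only
    linarith)
  rw [h4] at h3
  exact h1.1.trans h3

theorem surj (H : PData ρ e R0 c R X G f h Xs Xx fs fx hs hx) {p : ℝ × ℝ} (hp : p ∈ Om R e) :
    ∃ s ∈ Ioo 0 ρ, X (s, p.2) = p.1 := by
  obtain ⟨hx', hr0, hrR⟩ := hp
  set a := min R0 p.1 / 2 with ha
  have hm : 0 < min R0 p.1 := lt_min H.hR0 hr0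
  have haI : a ∈ Ioo 0 ρ := ⟨by positivity, by
    have : min R0 p.1 ≤ R0 := min_le_left _ _
    linarith [H.hRρ, H.hR0]⟩
  have hXa : X (a, p.2) = a := H.small _ ⟨haI, hx'⟩ (by
    have : min R0 p.1 ≤ R0 := min_le_left _ _
    simp only
    linarith [H.hR0])
  have hXa' : X (a, p.2) < p.1 := by
    rw [hXa]
    have : min R0 p.1 ≤ p.1 := min_le_right _ _
    linarith
  have hev : ∀ᶠ s in 𝓝[<] ρ, p.1 < X (s, p.2) :=
    (H.limX p.2 hx').eventually (lt_mem_nhds hrR)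
  have hev2 : ∀ᶠ s in 𝓝[<] ρ, s ∈ Ioo a ρ := Ioo_mem_nhdsLT haI.2
  obtain ⟨b, hb1, hb2⟩ := (hev.and hev2).exists
  have hcont : ContinuousOn (fun s => X (s, p.2)) (Icc a b) := by
    intro s hs'
    exact (H.sline hx' ⟨haI.1.trans_le hs'.1, hs'.2.trans_lt hb2.2⟩).continuousAt.continuousWithinAt
  obtain ⟨s, hs1, hs2⟩ := intermediate_value_Icc hb2.1.le hcont ⟨hXa'.le, hb1.le⟩
  exact ⟨s, ⟨haI.1.trans_le hs1.1, hs1.2.trans_lt hb2.2⟩, hs2⟩

end PData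

/-- the inverse parameter `σ(r,x)` -/
noncomputable def sig (ρ : ℝ) (X : ℝ × ℝ → ℝ) (p : ℝ × ℝ) : ℝ :=
  Classical.epsilon fun s => s ∈ Ioo 0 ρ ∧ X (s, p.2) = p.1

namespace PData

variable {ρ e R0 c : ℝ} {R : ℝ → ℝ} {X G f h Xs Xx fs fx hs hx : ℝ × ℝ → ℝ}

theorem sig_spec (H : PData ρ e R0 c R X G f h Xs Xx fs fx hs hx) {p : ℝ × ℝ}
    (hp : p ∈ Om R e) : sig ρ X p ∈ Ioo 0 ρ ∧ X (sig ρ X p, p.2) = p.1 := by
  have := Classical.epsilon_spec (H.surj hp)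
  exact this

theorem sig_mem (H : PData ρ e R0 c R X G f h Xs Xx fs fx hs hx) {p : ℝ × ℝ}
    (hp : p ∈ Om R e) : (sig ρ X p, p.2) ∈ UU ρ e := ⟨(H.sig_spec hp).1, hp.1⟩

theorem sig_unique (H : PData ρ e R0 c R X G f h Xs Xx fs fx hs hx) {p : ℝ × ℝ}
    (hp : p ∈ Om R e) {s : ℝ} (hs' : s ∈ Ioo 0 ρ) (hX : X (s, p.2) = p.1) : sig ρ X p = s := by
  obtain ⟨h1, h2⟩ := H.sig_spec hp
  exact (H.mono hp.1).injOn h1 hs' (h2.trans hX.symm)

theorem lt_sig (H : PData ρ e R0 c R X G f h Xs Xx fs fx hs hx) {p : ℝ × ℝ}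
    (hp : p ∈ Om R e) {s : ℝ} (hs' : s ∈ Ioo 0 ρ) (hX : X (s, p.2) < p.1) : s < sig ρ X p := by
  obtain ⟨h1, h2⟩ := H.sig_spec hp
  rw [← h2] at hX
  exact ((H.mono hp.1).lt_iff_lt hs' h1).mp hX

theorem sig_lt (H : PData ρ e R0 c R X G f h Xs Xx fs fx hs hx) {p : ℝ × ℝ}
    (hp : p ∈ Om R e) {s : ℝ} (hs' : s ∈ Ioo 0 ρ) (hX : p.1 < X (s, p.2)) : sig ρ X p < s := by
  obtain ⟨h1, h2⟩ := H.sig_spec hp
  rw [← h2] at hX
  exact ((H.mono hp.1).lt_iff_lt h1 hs').mp hX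

theorem contX (H : PData ρ e R0 c R X G f h Xs Xx fs fx hs hx) {s x : ℝ}
    (hs' : s ∈ Ioo 0 ρ) (hx' : x ∈ Ioo (-1 - e) (1 + e)) :
    ContinuousAt (fun x => X (s, x)) x := by
  have h1 := (H.dX (s, x) ⟨hs', hx'⟩).continuousAt
  exact ContinuousAt.comp (f := fun x : ℝ => (s, x)) h1
    (continuousAt_const.prodMk continuousAt_id)

/-- `Om` is a neighbourhood of each of its points; stated through the parameter -/
theorem contR (H : PData ρ e R0 c R X G f h Xs Xx fs fx hs hx) : ContinuousOn R (Ioo (-1 - e) (1 + e)) :=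
  H.prof.smooth.continuousOn

theorem isOpen_Om (H : PData ρ e R0 c R X G f h Xs Xx fs fx hs hx) : IsOpen (Om R e) := by
  rw [isOpen_iff_mem_nhds]
  rintro ⟨r, x⟩ ⟨hx', hr0, hrR⟩
  have hR : ContinuousAt R x := (H.contR).continuousAt (Ioo_mem_nhds hx'.1 hx'.2)
  have e1 : ∀ᶠ p : ℝ × ℝ in 𝓝 (r, x), p.2 ∈ Ioo (-1 - e) (1 + e) :=
    continuous_snd.continuousAt.eventually (Ioo_mem_nhds hx'.1 hx'.2)
  have e2 : ∀ᶠ p : ℝ × ℝ in 𝓝 (r, x), 0 < p.1 :=
    continuous_fst.continuousAt.eventually (lt_mem_nhds hr0)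
  have hc : ContinuousAt (fun p : ℝ × ℝ => R p.2 - p.1) (r, x) :=
    (ContinuousAt.comp (f := fun p : ℝ × ℝ => p.2) hR continuous_snd.continuousAt).sub
      continuous_fst.continuousAt
  have e3 : ∀ᶠ p : ℝ × ℝ in 𝓝 (r, x), 0 < R p.2 - p.1 :=
    hc.eventually (lt_mem_nhds (by simp only; linarith))
  filter_upwards [e1, e2, e3] with p h1 h2 h3
  exact ⟨h1, h2, by linarith⟩

theorem continuousAt_sig (H : PData ρ e R0 c R X G f h Xs Xx fs fx hs hx) {p : ℝ × ℝ}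
    (hp : p ∈ Om R e) : ContinuousAt (sig ρ X) p := by
  obtain ⟨h1, h2⟩ := H.sig_spec hp
  have hO : Om R e ∈ 𝓝 p := H.isOpen_Om.mem_nhds hp
  have low : ∀ a ∈ Ioo 0 ρ, a < sig ρ X p → ∀ᶠ q in 𝓝 p, a < sig ρ X q := by
    intro a ha hlt
    have hX : X (a, p.2) < p.1 := by
      rw [← h2]; exact H.mono hp.1 ha h1 hlt
    have hc : ContinuousAt (fun q : ℝ × ℝ => q.1 - X (a, q.2)) p :=
      continuous_fst.continuousAt.sub
        (ContinuousAt.comp (f := fun q : ℝ × ℝ => q.2) (H.contX ha hp.1)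
          continuous_snd.continuousAt)
    have := hc.eventually (lt_mem_nhds (a := 0) (by simp only; linarith))
    filter_upwards [this, hO] with q hq hqO
    exact H.lt_sig hqO ha (by linarith)
  have high : ∀ a ∈ Ioo 0 ρ, sig ρ X p < a → ∀ᶠ q in 𝓝 p, sig ρ X q < a := by
    intro a ha hlt
    have hX : p.1 < X (a, p.2) := by
      rw [← h2]; exact H.mono hp.1 h1 ha hlt
    have hc : ContinuousAt (fun q : ℝ × ℝ => X (a, q.2) - q.1) p :=
      (ContinuousAt.comp (f := fun q : ℝ × ℝ => q.2) (H.contX ha hp.1)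
          continuous_snd.continuousAt).sub continuous_fst.continuousAt
    have := hc.eventually (lt_mem_nhds (a := 0) (by simp only; linarith))
    filter_upwards [this, hO] with q hq hqO
    exact H.sig_lt hqO ha (by linarith)
  rw [ContinuousAt, tendsto_order]
  constructor
  · intro a ha
    have hm : max a (sig ρ X p / 2) ∈ Ioo 0 ρ :=
      ⟨lt_max_of_lt_right (by linarith [h1.1]), max_lt (ha.trans h1.2) (by linarith [h1.1, h1.2])⟩
    have := low _ hm (max_lt ha (by linarith [h1.1]))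
    filter_upwards [this] with q hq
    exact (le_max_left _ _).trans_lt hq
  · intro a ha
    have hm : min a ((sig ρ X p + ρ) / 2) ∈ Ioo 0 ρ :=
      ⟨lt_min (h1.1.trans ha) (by linarith [h1.1, h1.2]),
        (min_le_right _ _).trans_lt (by linarith [h1.2])⟩
    have := high _ hm (lt_min ha (by linarith [h1.2]))
    filter_upwards [this] with q hq
    exact hq.trans_le (min_le_left _ _)

/-- near the boundary the parameter tends to `ρ` -/
theorem tendsto_sig (H : PData ρ e R0 c R X G f h Xs Xx fs fx hs hx) {x : ℝ}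
    (hx' : x ∈ Ioo (-1 - e) (1 + e)) :
    Tendsto (sig ρ X) (𝓝[Om R e] (R x, x)) (𝓝 ρ) := by
  rw [tendsto_order]
  constructor
  · intro a ha
    have hρ : 0 < ρ := H.hR0.trans H.hRρ
    have hm : max a (ρ / 2) ∈ Ioo 0 ρ :=
      ⟨lt_max_of_lt_right (by linarith), max_lt ha (by linarith)⟩
    have hX : X (max a (ρ / 2), x) < R x := H.lt_R hx' hm
    have hc : ContinuousAt (fun q : ℝ × ℝ => q.1 - X (max a (ρ / 2), q.2)) (R x, x) :=
      continuous_fst.continuousAt.sub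
        (ContinuousAt.comp (f := fun q : ℝ × ℝ => q.2) (H.contX hm hx')
          continuous_snd.continuousAt)
    have h3 := hc.eventually (lt_mem_nhds (a := 0) (by simp only; linarith))
    have h4 : ∀ᶠ q in 𝓝[Om R e] (R x, x), 0 < q.1 - X (max a (ρ / 2), q.2) :=
      h3.filter_mono nhdsWithin_le_nhds
    filter_upwards [h4, self_mem_nhdsWithin] with q hq hqO
    exact (le_max_left _ _).trans_lt (H.lt_sig hqO hm (by linarith))
  · intro a ha
    filter_upwards [self_mem_nhdsWithin] with q hqO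
    exact (H.sig_spec hqO).1.2.trans ha


theorem hasFDerivAt_sig (H : PData ρ e R0 c R X G f h Xs Xx fs fx hs hx) {p : ℝ × ℝ}
    (hp : p ∈ Om R e) :
    HasFDerivAt (sig ρ X)
      (hd (1 / Xs (sig ρ X p, p.2)) (-Xx (sig ρ X p, p.2) / Xs (sig ρ X p, p.2))) p := by
  set q : ℝ × ℝ := (sig ρ X p, p.2) with hq
  have hqU : q ∈ UU ρ e := H.sig_mem hp
  have hpos := H.pos q hqU
  have hl : Function.LeftInverse ((hd (1 / Xs q) (-Xx q / Xs q)).prod
      (ContinuousLinearMap.snd ℝ ℝ ℝ)) ((hd (Xs q) (Xx q)).prod (ContinuousLinearMap.snd ℝ ℝ ℝ)) := by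
    intro v
    ext
    · simp only [ContinuousLinearMap.prod_apply, hd_apply, ContinuousLinearMap.coe_snd']
      field_simp
      ring
    · simp
  have hr : Function.RightInverse ((hd (1 / Xs q) (-Xx q / Xs q)).prod
      (ContinuousLinearMap.snd ℝ ℝ ℝ)) ((hd (Xs q) (Xx q)).prod (ContinuousLinearMap.snd ℝ ℝ ℝ)) := by
    intro v
    ext
    · simp only [ContinuousLinearMap.prod_apply, hd_apply, ContinuousLinearMap.coe_snd']
      field_simp
      ring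
    · simp
  set L : (ℝ × ℝ) ≃L[ℝ] (ℝ × ℝ) := ContinuousLinearEquiv.equivOfInverse _ _ hl hr with hL
  have hf : HasFDerivAt (fun a : ℝ × ℝ => (X a, a.2)) (L : ℝ × ℝ →L[ℝ] ℝ × ℝ) q := by
    have := (H.dX q hqU).prodMk (hasFDerivAt_snd (𝕜 := ℝ) (E := ℝ) (F := ℝ) (p := q))
    exact this
  have hg : ContinuousAt (fun a : ℝ × ℝ => (sig ρ X a, a.2)) p :=
    (H.continuousAt_sig hp).prodMk continuous_snd.continuousAt
  have hfg : ∀ᶠ y in 𝓝 p, (fun a : ℝ × ℝ => (X a, a.2)) ((fun a : ℝ × ℝ => (sig ρ X a, a.2)) y) = y := by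
    filter_upwards [H.isOpen_Om.mem_nhds hp] with y hy
    exact Prod.ext (H.sig_spec hy).2 rfl
  have h1 := HasFDerivAt.of_local_left_inverse (f := fun a : ℝ × ℝ => (X a, a.2))
    (g := fun a : ℝ × ℝ => (sig ρ X a, a.2)) (f' := L) hg hf hfg
  have h2 := (ContinuousLinearMap.fst ℝ ℝ ℝ).hasFDerivAt.comp p h1
  refine h2.congr_fderiv ?_
  ext <;> simp [hL]

/-- composition with the inverse parameter -/
theorem comp_sig (H : PData ρ e R0 c R X G f h Xs Xx fs fx hs hx) {F : ℝ × ℝ → ℝ} {a b : ℝ}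
    {p : ℝ × ℝ} (hp : p ∈ Om R e) (hF : HasFDerivAt F (hd a b) (sig ρ X p, p.2)) :
    HasFDerivAt (fun q : ℝ × ℝ => F (sig ρ X q, q.2))
      (hd (a / Xs (sig ρ X p, p.2)) (b - Xx (sig ρ X p, p.2) * a / Xs (sig ρ X p, p.2))) p := by
  have hpos := H.pos _ (H.sig_mem hp)
  have h1 := (H.hasFDerivAt_sig hp).prodMk (hasFDerivAt_snd (𝕜 := ℝ) (E := ℝ) (F := ℝ) (p := p))
  have h2 := hF.comp p h1
  refine h2.congr_fderiv (ContinuousLinearMap.ext fun v => ?_)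
  simp only [ContinuousLinearMap.comp_apply, ContinuousLinearMap.prod_apply, hd_apply,
    ContinuousLinearMap.coe_snd']
  field_simp
  ring

theorem dg (H : PData ρ e R0 c R X G f h Xs Xx fs fx hs hx) {p : ℝ × ℝ} (hp : p ∈ Om R e) :
    HasFDerivAt (fun q : ℝ × ℝ => G (sig ρ X q, q.2))
      (hd (f (sig ρ X p, p.2)) (h (sig ρ X p, p.2))) p := by
  have hpos := H.pos _ (H.sig_mem hp)
  refine (H.comp_sig hp (H.dG _ (H.sig_mem hp))).congr_fderiv ?_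
  congr 1
  · field_simp
  · field_simp
    ring

/-- symmetry of the mixed second derivative -/
theorem mixed (H : PData ρ e R0 c R X G f h Xs Xx fs fx hs hx) {p : ℝ × ℝ} (hp : p ∈ Om R e) :
    fx (sig ρ X p, p.2) - Xx (sig ρ X p, p.2) * fs (sig ρ X p, p.2) / Xs (sig ρ X p, p.2) =
      hs (sig ρ X p, p.2) / Xs (sig ρ X p, p.2) := by
  have hU := H.sig_mem hp
  have h1 : ∀ᶠ q in 𝓝 p, HasFDerivAt (fun q : ℝ × ℝ => G (sig ρ X q, q.2))
      (hd (f (sig ρ X q, q.2)) (h (sig ρ X q, q.2))) q := by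
    filter_upwards [H.isOpen_Om.mem_nhds hp] with q hq
    exact H.dg hq
  have a1 := H.comp_sig hp (H.df _ hU)
  have a2 := H.comp_sig hp (H.dh _ hU)
  have h2 : HasFDerivAt (fun q : ℝ × ℝ => hd (f (sig ρ X q, q.2)) (h (sig ρ X q, q.2)))
      ((hd (fs (sig ρ X p, p.2) / Xs (sig ρ X p, p.2))
        (fx (sig ρ X p, p.2) - Xx (sig ρ X p, p.2) * fs (sig ρ X p, p.2) /
          Xs (sig ρ X p, p.2))).smulRight (ContinuousLinearMap.fst ℝ ℝ ℝ) +
       (hd (hs (sig ρ X p, p.2) / Xs (sig ρ X p, p.2))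
        (hx (sig ρ X p, p.2) - Xx (sig ρ X p, p.2) * hs (sig ρ X p, p.2) /
          Xs (sig ρ X p, p.2))).smulRight (ContinuousLinearMap.snd ℝ ℝ ℝ)) p :=
    (a1.smul_const (ContinuousLinearMap.fst ℝ ℝ ℝ)).add
      (a2.smul_const (ContinuousLinearMap.snd ℝ ℝ ℝ))
  have h3 := second_derivative_symmetric_of_eventually h1 h2 ((1 : ℝ), (0 : ℝ)) ((0 : ℝ), (1 : ℝ))
  simp only [ContinuousLinearMap.add_apply, ContinuousLinearMap.smulRight_apply, hd_apply,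
    ContinuousLinearMap.smul_apply, ContinuousLinearMap.coe_fst', ContinuousLinearMap.coe_snd',
    smul_eq_mul, mul_zero, mul_one, add_zero, zero_add] at h3
  exact h3.symm

theorem contOn_comp (H : PData ρ e R0 c R X G f h Xs Xx fs fx hs hx) {F : ℝ × ℝ → ℝ}
    (hF : ContinuousOn F (UU ρ e)) :
    ContinuousOn (fun q : ℝ × ℝ => F (sig ρ X q, q.2)) (Om R e) := by
  have h1 : ContinuousOn (fun q : ℝ × ℝ => (sig ρ X q, q.2)) (Om R e) := fun q hq =>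
    ((H.continuousAt_sig hq).prodMk continuous_snd.continuousAt).continuousWithinAt
  exact hF.comp h1 (fun q hq => H.sig_mem hq)

theorem contDiffOn_g (H : PData ρ e R0 c R X G f h Xs Xx fs fx hs hx) :
    ContDiffOn ℝ 2 (fun q : ℝ × ℝ => G (sig ρ X q, q.2)) (Om R e) := by
  have hne : ∀ p ∈ UU ρ e, Xs p ≠ 0 := fun p hp => (H.pos p hp).ne'
  refine Pool.Agent.H36.SC.contDiffOn_two_of_jet H.isOpen_Om
    (F1 := fun q => f (sig ρ X q, q.2)) (F2 := fun q => h (sig ρ X q, q.2))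
    (F11 := fun q => (fun p => fs p / Xs p) (sig ρ X q, q.2))
    (F12 := fun q => (fun p => fx p - Xx p * fs p / Xs p) (sig ρ X q, q.2))
    (F21 := fun q => (fun p => hs p / Xs p) (sig ρ X q, q.2))
    (F22 := fun q => (fun p => hx p - Xx p * hs p / Xs p) (sig ρ X q, q.2))
    (fun q hq => H.dg hq)
    (fun q hq => H.comp_sig hq (H.df _ (H.sig_mem hq)))
    (fun q hq => H.comp_sig hq (H.dh _ (H.sig_mem hq))) ?_ ?_ ?_ ?_
  · exact H.contOn_comp (H.cfs.div H.cXs hne)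
  · exact H.contOn_comp (H.cfx.sub ((H.cXx.mul H.cfs).div H.cXs hne))
  · exact H.contOn_comp (H.chs.div H.cXs hne)
  · exact H.contOn_comp (H.chx.sub ((H.cXx.mul H.chs).div H.cXs hne))

/-- limits at the boundary -/
theorem lim_comp (H : PData ρ e R0 c R X G f h Xs Xx fs fx hs hx) {F : ℝ × ℝ → ℝ} {x l : ℝ}
    (hx' : x ∈ Ioo (-1 - e) (1 + e)) (hF : Tendsto F (𝓝[UU ρ e] (ρ, x)) (𝓝 l)) :
    Tendsto (fun q : ℝ × ℝ => F (sig ρ X q, q.2)) (𝓝[Om R e] (R x, x)) (𝓝 l) := by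
  refine hF.comp ?_
  rw [tendsto_nhdsWithin_iff]
  refine ⟨?_, ?_⟩
  · have h2 : Tendsto (fun q : ℝ × ℝ => q.2) (𝓝[Om R e] (R x, x)) (𝓝 x) :=
      (continuous_snd.tendsto (R x, x)).mono_left nhdsWithin_le_nhds
    exact (H.tendsto_sig hx').prodMk_nhds h2
  · filter_upwards [self_mem_nhdsWithin] with q hq
    exact H.sig_mem hq

end PData

end H85Sch
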